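import Pool.Agent.MP_c853c5_nt.D2.Defs

set_option autoImplicit false

open Finset Filter

namespace Pool.Agent.MP_c853c5_nt.D2

open Pool.Agent.MP_c853c5_nt.S Pool.Agent.MP_c853c5_nt.D

lemma div_Bnd2 {x κ : ℝ} (hx : 0 ≤ x) (n : ℕ) (hn : n ≠ 0) (h : Rough x κ n) :
    ∃ k : ℕ, n.divisors.card ≤ 2 ^ k ∧ (x ^ κ) ^ k ≤ n := by
  induction n using induction_on_primes with
  | zero => exact absurd rfl hn
  | one => exact ⟨0, by simp, by simp⟩
  | prime_mul p a hp ih =>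
    obtain ⟨k, h1, h2⟩ := ih (right_ne_zero_of_mul hn) (rough_mul.1 h).2
    refine ⟨k + 1, ?_, ?_⟩
    · rw [Nat.divisors_mul, pow_succ']
      refine card_mul_le.trans (Nat.mul_le_mul ?_ h1)
      rw [hp.divisors]
      exact card_le_two
    · rw [pow_succ', Nat.cast_mul]
      exact mul_le_mul (h p hp (dvd_mul_right p a)).le h2 (by positivity) (Nat.cast_nonneg p)

lemma card_Bnd2 {x κ : ℝ} (hx : 1 < x) (hκ : 0 < κ) {n : ℕ} (hn : n ≠ 0)
    (h2 : (n : ℝ) ≤ x ^ (2 : ℝ)) (h : Rough x κ n) :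
    (n.divisors.card : ℝ) ≤ 2 ^ ⌈2 / κ⌉₊ := by
  obtain ⟨k, h3, h4⟩ := div_Bnd2 (by linarith) n hn h
  rw [← Real.rpow_natCast, ← Real.rpow_mul (by linarith)] at h4
  have h5 : κ * k ≤ 2 := (Real.rpow_le_rpow_left_iff hx).1 (h4.trans h2)
  have h6 : (k : ℝ) ≤ ⌈2 / κ⌉₊ := le_trans (by rw [le_div_iff₀ hκ]; linarith) (Nat.le_ceil _)
  have h7 : k ≤ ⌈2 / κ⌉₊ := by exact_mod_cast h6
  exact_mod_cast h3.trans (Nat.pow_le_pow_right two_pos h7)

lemma prod_Bnd2 {ι : Type} [DecidableEq ι] {x κ : ℝ} (hx : 1 < x) (hκ : 0 < κ) (f : ι → AF)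
    (hf : ∀ i n, 0 ≤ f i n ∧ f i n ≤ 1) (s : Finset ι) (n : ℕ) (hn : n ≠ 0)
    (h2 : (n : ℝ) ≤ x ^ (2 : ℝ)) (h : Rough x κ n) :
    (∏ i ∈ s, f i) n ≤ (2 ^ ⌈2 / κ⌉₊) ^ s.card := by
  induction s using Finset.induction_on generalizing n with
  | empty =>
    rw [prod_empty, ArithmeticFunction.one_apply, card_empty, pow_zero]
    split_ifs <;> norm_num
  | insert a s ha ih =>
    rw [prod_insert ha, card_insert_of_notMem ha, pow_succ', ArithmeticFunction.mul_apply,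
      Nat.sum_divisorsAntidiagonal' (fun u v => f a u * (∏ i ∈ s, f i) v)]
    refine (sum_le_card_nsmul _ _ ((2 ^ ⌈2 / κ⌉₊) ^ s.card) fun d hd => ?_).trans ?_
    · have hd' := Nat.dvd_of_mem_divisors hd
      have h3 := ih d (ne_zero_of_dvd_ne_zero hn hd')
        (le_trans (by exact_mod_cast Nat.divisor_le hd) h2) fun p hp hpd => h p hp (hpd.trans hd')
      exact (mul_le_mul_of_nonneg_left h3 (hf a _).1).trans
        (mul_le_of_le_one_left (by positivity) (hf a _).2)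
    · rw [nsmul_eq_mul]
      exact mul_le_mul_of_nonneg_right (card_Bnd2 hx hκ hn h2 h) (by positivity)

lemma rough_prod_Bnd2 {ι : Type} {x κ : ℝ} (s : Finset ι) (m : ι → ℕ)
    (h : ∀ i ∈ s, Rough x κ (m i)) : Rough x κ (∏ i ∈ s, m i) := fun p hp hd => by
  obtain ⟨i, hi, h1⟩ := (Prime.dvd_finsetProd_iff hp.prime m).1 hd
  exact h i hi p hp h1

theorem d2Bnd : BndStmt := by
  classical
  intro ι _ κ hκ
  refine ⟨(2 ^ ⌈2 / κ⌉₊) ^ Fintype.card ι, by positivity, ?_⟩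
  filter_upwards [eventually_ge_atTop (2 : ℝ)] with x hx f hf n hn
  have hx1 : 1 < x := by linarith
  by_cases h0 : (∏ i, f i) n = 0
  · rw [h0]
    exact mul_nonneg (by positivity) (nn_bf x _ n)
  obtain ⟨m, hm, hm'⟩ := exists_of_prod_ne univ f h0
  have hn0 : n ≠ 0 := by
    rintro rfl
    exact h0 ArithmeticFunction.map_zero
  have hr : Rough x κ n := hm ▸ rough_prod_Bnd2 univ m fun i hi => (hf i _).2.2 (hm' i hi)
  have h2 : (n : ℝ) ≤ x ^ (2 : ℝ) := by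
    rw [Real.rpow_two]
    nlinarith
  rw [RR, bf_of_mem ((mem_fr hx1).2 ⟨hn0, h2, hr⟩), mul_one]
  exact prod_Bnd2 hx1 hκ f (fun i n => ⟨(hf i n).1, (hf i n).2.1⟩) univ n hn0 h2 hr

end Pool.Agent.MP_c853c5_nt.D2
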