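import Pool.Agent.MP_c853c5_nt.D2.Defs

/-!
One box at a nominal point, with two sieved factors.
-/

set_option autoImplicit false

open Finset Filter

namespace Pool.Agent.MP_c853c5_nt.D2

open Pool.Agent.MP_c853c5_nt.S Pool.Agent.MP_c853c5_nt.D

lemma slot_Box2 (x κ : ℝ) (k : ℕ) : Slot ⌈yk_T1 k⌉₊ (pc (RR x κ) k) := by
  refine ⟨Nat.ceil_pos.2 (yk_pos_T1 k), fun n => ?_, fun n hn => ?_⟩
  · rw [abs_of_nonneg (nn_pc (nn_RR x κ) k n)]
    exact (pm_le (nn_RR x κ) (oy_le _) n).trans (bf_le_one _ _ _)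
  · obtain ⟨-, h1, h2⟩ := pc_ne hn
    refine ⟨Nat.ceil_le.2 h1.le, ?_⟩
    have h3 := Nat.le_ceil (yk_T1 k)
    have h4 : (n : ℝ) < 2 * (⌈yk_T1 k⌉₊ : ℝ) := by linarith
    exact_mod_cast h4

lemma ceil_Box2 (k : ℕ) : (⌈yk_T1 k⌉₊ : ℝ) ≤ yk_T1 k * 3 := by
  have h1 := Nat.ceil_lt_add_one (yk_pos_T1 k).le
  have h2 : yk_T1 0 ≤ yk_T1 k := yk_mono (Nat.zero_le k)
  have h3 : yk_T1 0 = 3 / 4 := by simp [yk_T1]
  linarith

lemma near_Box2 {x γ γ' b : ℝ} {k : ℕ} (hx : 1 ≤ x) (h3 : 3 ≤ x ^ γ) (hγ : 0 < γ)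
    (h : 2 * γ ≤ γ') (h1 : x ^ (b - γ) ≤ yk_T1 k) (h2 : yk_T1 k ≤ x ^ (b + γ)) :
    x ^ (b - γ') ≤ (⌈yk_T1 k⌉₊ : ℝ) ∧ (⌈yk_T1 k⌉₊ : ℝ) ≤ x ^ (b + γ') := by
  have hx0 : 0 < x := by linarith
  refine ⟨((Real.rpow_le_rpow_of_exponent_le hx (by linarith)).trans h1).trans (Nat.le_ceil _),
    (ceil_Box2 k).trans ((mul_le_mul h2 h3 (by norm_num) (by positivity)).trans ?_)⟩
  rw [← Real.rpow_add hx0]
  exact Real.rpow_le_rpow_of_exponent_le hx (by linarith)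

lemma err_Box2 {x : ℝ} {G E : AF} {k : ℕ} (hx : 1 ≤ x)
    (hy : 2 * x ^ (1 / 20 : ℝ) ≤ yk_T1 k) : SB x (G * pc E k) ≤ SB x (low x G * pc E k) := by
  have hx0 : 0 < x := by linarith
  refine SB_mono hx0.le fun n hn => ?_
  rw [ArithmeticFunction.mul_apply, ArithmeticFunction.mul_apply]
  refine sum_le_sum fun p hp => ?_
  by_cases h0 : pc E k p.2 = 0
  · rw [h0, mul_zero, mul_zero]
  obtain ⟨h1, h2⟩ := Nat.mem_divisorsAntidiagonal.1 hp
  have h3 : p.1 ≠ 0 := fun h => h2 (by rw [← h1, h, zero_mul])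
  have h4 : (0 : ℝ) < p.1 := by exact_mod_cast Nat.pos_of_ne_zero h3
  have h5 : (p.1 : ℝ) * p.2 ≤ 2 * x := by
    rw [← Nat.cast_mul, h1]
    exact hn.2
  have h6 := (pc_ne h0).2.1
  have h7 : 0 < x ^ (1 / 20 : ℝ) := by positivity
  have h8 : x ^ (19 / 20 : ℝ) * x ^ (1 / 20 : ℝ) = x := by
    rw [← Real.rpow_add hx0]
    norm_num
  have h9 : (p.1 : ℝ) ≤ x ^ (19 / 20 : ℝ) := by
    refine le_of_mul_le_mul_right ?_ h7
    rw [h8]
    nlinarith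
  rw [low, pm_apply, rg, if_pos ⟨h4, h9⟩, mul_one]

lemma step_Box2 (t : ℝ) {x κ : ℝ} {w k : ℕ} {lam e G G' G'' : AF} (h : FW x κ w lam e)
    (hx : 1 ≤ x) (hG : Nn G) (h1 : Le G G') (h2 : Le G' G'')
    (hy : 2 * x ^ (1 / 20 : ℝ) ≤ yk_T1 k) :
    |Dl t x (G * pc (RR x κ) k)| ≤ |Dl t x (G * pc (lam * zt) k)| +
      |Dl t x (G' * pc (e * zt) k)| + 2 * SB x (low x G'' * pc (e * zt) k) := by
  have hx0 : 0 < x := by linarith
  have hE : Nn (pc (e * zt) k) := nn_pc h.pos k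
  have h3 : ∀ n, Win x n → |(G * pc (RR x κ) k) n - (G * pc (lam * zt) k) n| ≤
      (G' * pc (e * zt) k) n := fun n hn => by
    have h4 : (G * pc (RR x κ) k) n ≤ (G * pc (lam * zt) k) n :=
      B.mul_apply_mono hG fun d _ =>
        mul_le_mul_of_nonneg_right (h.maj d) (oy_nn (yk_pos_T1 k) d)
    have h5 : 0 < n := by
      have : (0 : ℝ) < n := lt_trans (by positivity) hn.1
      exact_mod_cast this
    have h6 : (G * pc (lam * zt) k) n ≤ (G * (pc (RR x κ) k + pc (e * zt) k)) n :=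
      B.mul_apply_mono hG fun d hd => by
        have h7 : (d : ℝ) ≤ n := by exact_mod_cast Nat.le_of_dvd h5 hd
        have h8 := mul_le_mul_of_nonneg_right (h.gap d (h7.trans hn.2)) (oy_nn (yk_pos_T1 k) d)
        rw [add_mul] at h8
        exact h8
    rw [mul_add, ArithmeticFunction.add_apply] at h6
    have h7 := h1.mul_right hE n
    rw [abs_sub_comm, abs_of_nonneg (sub_nonneg.2 h4)]
    linarith
  have h4 := abs_Dl_le t hx0.le h3
  have h5 : SB x (G' * pc (e * zt) k) ≤ SB x (G'' * pc (e * zt) k) :=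
    SB_mono hx0.le fun n _ => h2.mul_right hE n
  have h6 := err_Box2 (G := G'') (E := e * zt) hx hy
  linarith

theorem d2Box : BoxStmt := by
  intro hTa hTb hE1 hE2 hE12 ι _ τ t η η' κ K w A ht htτ hτ hη hη1 hη' hκ hlev
  obtain ⟨γ2, hγ2, h2⟩ := hE2 (Option (Option ι)) τ t η' K A ht htτ hτ hη'
  obtain ⟨γa, hγa, ha⟩ := hTa hE1 (Option ι) τ t η K ht htτ hτ hη hη1
  obtain ⟨γb, hγb, hb⟩ := hTb hE12 ι τ t η K ht htτ hτ hη hη1
  obtain ⟨γ, hγ, g2, ga, gb, g1⟩ : ∃ γ : ℝ, 0 < γ ∧ 2 * γ ≤ γ2 ∧ 2 * γ ≤ γa ∧ 2 * γ ≤ γb ∧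
      γ ≤ 1 / 100 := by
    refine ⟨min (min γ2 γa) (min γb (1 / 50)) / 2, by positivity, ?_, ?_, ?_, ?_⟩
    · linarith [min_le_left (min γ2 γa) (min γb (1 / 50)), min_le_left γ2 γa]
    · linarith [min_le_left (min γ2 γa) (min γb (1 / 50)), min_le_right γ2 γa]
    · linarith [min_le_right (min γ2 γa) (min γb (1 / 50)), min_le_left γb (1 / 50)]
    · linarith [min_le_right (min γ2 γa) (min γb (1 / 50)), min_le_right γb (1 / 50)]
  refine ⟨γ, hγ, ?_⟩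
  filter_upwards [h2, ha, hb, log_One (η / 20) (by positivity) A, eventually_ge_atTop 1,
    (tendsto_rpow_atTop hγ).eventually_ge_atTop 3,
    (tendsto_rpow_atTop (show (0 : ℝ) < 1 / 25 by norm_num)).eventually_ge_atTop 2,
    (tendsto_rpow_atTop (show 0 < η / 20 by positivity)).eventually_ge_atTop 3]
    with x h2 ha hb hlog x1 xγ x25 xη
  intro lam e hF pr c b1 b2 N g k1 k2 hc hb1 hb2 hsum hAlt hsl hg0 hN hpr y1 y1' y2 y2' hprod
  have x0 : 0 < x := by linarith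
  have hs0 : 0 ≤ ∑ i, c i := sum_nonneg fun i _ => hc i
  have hc1 : ∀ i, 0 ≤ c i ∧ c i ≤ 1 := fun i =>
    ⟨hc i, by linarith [single_le_sum (f := c) (fun j _ => hc j) (mem_univ i)]⟩
  have b11 : b1 ≤ 1 := by linarith
  have b21 : b2 ≤ 1 := by linarith
  have hH : Nn (∏ i, g i) := Nn.prod fun i _ => hg0 i
  have e12 := hF.er_nn x0.le hH k1 k2
  have e21 := hF.er_nn x0.le hH k2 k1
  have hp0 : 0 ≤ ∏ i, (N i : ℝ) := prod_nonneg fun i _ => Nat.cast_nonneg _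
  have h3 : 3 * x ^ (1 - η / 10) ≤ x / Real.log x ^ A := by
    refine le_trans ?_ hlog
    rw [show 1 - η / 20 = η / 20 + (1 - η / 10) by ring, Real.rpow_add x0]
    exact mul_le_mul_of_nonneg_right xη (by positivity)
  have h4 : 0 ≤ x ^ (1 - η / 10) := by positivity
  have sl : ∀ d, lam d ≠ 0 → (d : ℝ) ≤ x ^ lev τ t η := fun d hd =>
    (hF.s1 d hd).trans (Real.rpow_le_rpow_of_exponent_le x1 hlev)
  have se : ∀ d, e d ≠ 0 → (d : ℝ) ≤ x ^ lev τ t η := fun d hd =>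
    (hF.s2 d hd).trans (Real.rpow_le_rpow_of_exponent_le x1 hlev)
  have big : ∀ {b : ℝ} {k : ℕ}, 1 / 10 ≤ b → x ^ (b - γ) ≤ yk_T1 k →
      2 * x ^ (1 / 20 : ℝ) ≤ yk_T1 k := fun {b k} h5 h6 => by
    refine le_trans ?_ h6
    refine (mul_le_mul_of_nonneg_right x25 (by positivity)).trans ?_
    rw [← Real.rpow_add x0]
    exact Real.rpow_le_rpow_of_exponent_le x1 (by linarith)
  have lo : ∀ {b γ' y : ℝ}, 2 * γ ≤ γ' → x ^ (b - γ) ≤ y → x ^ (b - γ') ≤ y :=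
    fun h5 h6 => (Real.rpow_le_rpow_of_exponent_le x1 (by linarith)).trans h6
  have hi : ∀ {b γ' y : ℝ}, 2 * γ ≤ γ' → y ≤ x ^ (b + γ) → y ≤ x ^ (b + γ') :=
    fun h5 h6 => h6.trans (Real.rpow_le_rpow_of_exponent_le x1 (by linarith))
  have key : ∀ (b1 b2 : ℝ) (k1 k2 : ℕ), b1 ≤ 1 → 0 ≤ b2 → b2 ≤ 1 →
      x ^ (b1 - γ) ≤ yk_T1 k1 → yk_T1 k1 ≤ x ^ (b1 + γ) →
      x ^ (b2 - γ) ≤ yk_T1 k2 → yk_T1 k2 ≤ x ^ (b2 + γ) →
      (∏ i, (N i : ℝ)) * ⌈yk_T1 k2⌉₊ * ⌈yk_T1 k1⌉₊ ≤ 2 * x →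
      E1pt τ η K (fun o : Option ι => o.elim b2 c) b1 →
      |Dl t x ((∏ i, g i) * pc (RR x κ) k2 * pc (RR x κ) k1)| ≤ x / Real.log x ^ A +
        2 * er x κ lam e (∏ i, g i) k2 k1 := by
    intro b1 b2 k1 k2 b11 hb2 b21 y1 y1' y2 y2' hprod hE
    have h5 : ∀ l : AF, (∀ d, |l d| ≤ 1) → (∀ d, l d ≠ 0 → (d : ℝ) ≤ x ^ lev τ t η) →
        |Dl t x ((∏ i, g i) * pc (RR x κ) k2 * pc (l * zt) k1)| ≤ x ^ (1 - η / 10) := by
      intro l l1 l2
      have h6 := ha (fun o => o.elim b2 c) b1 (fun o => o.elim ⌈yk_T1 k2⌉₊ N)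
        (fun o => o.elim (pc (RR x κ) k2) g) l (yk_T1 k1)
        (by rintro (_ | i); exacts [⟨hb2, b21⟩, hc1 i]) b11 hE
        (by rintro (_ | i); exacts [slot_Box2 x κ k2, hsl i])
        (by rintro (_ | i); exacts [(near_Box2 x1 xγ hγ ga y2 y2').2, hi ga (hN i).2])
        (lo ga y1) (hi ga y1') (by
          rw [Fintype.prod_option]
          refine le_trans ?_ hprod
          simp only [Option.elim]
          rw [mul_comm _ (∏ i, (N i : ℝ))]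
          exact mul_le_mul_of_nonneg_left (Nat.le_ceil _) (by positivity)) l1 l2
      rw [Fintype.prod_option] at h6
      simp only [Option.elim] at h6
      rwa [mul_comm (pc (RR x κ) k2)] at h6
    have h6 := step_Box2 t hF x1 (hH.mul (nn_pc (nn_RR x κ) k2)) (Le.refl _)
      ((hF.le_up k2).mul_left hH) (big hE.1 y1)
    have h7 := h5 lam hF.b1 sl
    have h8 := h5 e hF.b2 se
    unfold er
    linarith
  rcases hAlt with hE | hE | hE | hE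
  · have h5 := h2 _ (fun o => o.elim b1 fun o' => o'.elim b2 c)
      (fun o => o.elim ⌈yk_T1 k1⌉₊ fun o' => o'.elim ⌈yk_T1 k2⌉₊ N)
      (fun o => o.elim (pc (RR x κ) k1) fun o' => o'.elim (pc (RR x κ) k2) g)
      (by rintro (_ | _ | i); exacts [⟨hb1, b11⟩, ⟨hb2, b21⟩, hc1 i]) hE
      (by rintro (_ | _ | i); exacts [slot_Box2 x κ k1, slot_Box2 x κ k2, hsl i])
      (by
        rintro (_ | _ | i)
        exacts [near_Box2 x1 xγ hγ g2 y1 y1', near_Box2 x1 xγ hγ g2 y2 y2',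
          ⟨lo g2 (hN i).1, hi g2 (hN i).2⟩])
      (by rintro (_ | _ | i) h; exacts [h.elim, h.elim, hpr i h]) (by
        rw [Fintype.prod_option, Fintype.prod_option]
        refine le_trans (le_of_eq ?_) hprod
        simp only [Option.elim]
        ring)
    rw [Fintype.prod_option, Fintype.prod_option] at h5
    simp only [Option.elim] at h5
    rw [show (∏ i, g i) * pc (RR x κ) k1 * pc (RR x κ) k2 =
      pc (RR x κ) k1 * (pc (RR x κ) k2 * ∏ i, g i) by ring]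
    linarith
  · have h5 := key b1 b2 k1 k2 b11 hb2 b21 y1 y1' y2 y2' (by rwa [mul_right_comm]) hE
    rw [mul_right_comm]
    linarith
  · have h5 := key b2 b1 k2 k1 b21 hb1 b11 y2 y2' y1 y1' hprod hE
    linarith
  · have h5 : ∀ l1 l2 : AF, (∀ d, |l1 d| ≤ 1) → (∀ d, |l2 d| ≤ 1) →
        (∀ d, l1 d ≠ 0 → (d : ℝ) ≤ x ^ lev τ t η) → (∀ d, l2 d ≠ 0 → (d : ℝ) ≤ x ^ lev τ t η) →
        |Dl t x ((∏ i, g i) * pc (l1 * zt) k1 * pc (l2 * zt) k2)| ≤ x ^ (1 - η / 10) :=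
      fun l1 l2 => hb c b1 b2 N g l1 l2 _ _ hc1 b11 b21 hE hsl (fun i => hi gb (hN i).2)
        (lo gb y1) (hi gb y1') (lo gb y2) (hi gb y2') (le_trans (mul_le_mul
          (mul_le_mul_of_nonneg_left (Nat.le_ceil _) hp0) (Nat.le_ceil _) (yk_pos_T1 k2).le
          (by positivity)) hprod)
    have z1 := big hE.1 y1
    have z2 := big hE.2.1 y2
    have z0 : 0 < x ^ (1 / 20 : ℝ) := by positivity
    have u1 : up x κ lam k1 = pc (lam * zt) k1 := if_neg (by linarith)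
    have u2 : up x κ lam k2 = pc (lam * zt) k2 := if_neg (by linarith)
    have h6 := step_Box2 t hF x1 (hH.mul (nn_pc (nn_RR x κ) k1)) ((hF.le_up k1).mul_left hH)
      (Le.refl _) z2
    have h7 := step_Box2 t hF x1 (hH.mul (hF.nn_up k2)) (Le.refl _) (Le.refl _) z1
    have h8 := h5 lam lam hF.b1 hF.b1 sl sl
    have h9 := h5 lam e hF.b1 hF.b2 sl se
    have h10 := h5 e lam hF.b2 hF.b1 se sl
    unfold er
    rw [u1] at h6 ⊢
    rw [u2] at h7 ⊢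
    rw [mul_right_comm _ _ (pc (RR x κ) k1), mul_right_comm _ _ (pc (lam * zt) k1),
      mul_right_comm _ _ (pc (e * zt) k1)] at h7
    linarith

end Pool.Agent.MP_c853c5_nt.D2
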