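import Pool.Agent.MP_c853c5_nt.D2.Defs

set_option autoImplicit false

open Finset

namespace Pool.Agent.MP_c853c5_nt.D2

open Pool.Agent.MP_c853c5_nt.S Pool.Agent.MP_c853c5_nt.D

lemma dec_Cut2 (P R : AF) (j L n : ℕ) {X m : ℕ} (h1 : X < 2 ^ L) (h2 : (X : ℝ) ≤ yk_T1 n)
    (hm : m ≤ X) : (P ^ j * R) m = ∑ e : Fin j → Fin L, ∑ k ∈ range n,
      ((∏ i, dy (2 ^ (e i : ℕ)) P) * pc R k) m := by
  have e1 : P ^ j = ∏ _i : Fin j, P := by simp
  simp only [← AF_sum]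
  rw [← sum_mul_sum, ← Fintype.piFinset_univ,
    ← prod_univ_sum (fun _ => univ) fun (_ : Fin j) (e : Fin L) => dy (2 ^ (e : ℕ)) P, e1]
  refine mul_Dy (X := X + 1) (prod_Dy _ fun i d hd => ?_) (fun d hd => ?_) m (by omega)
  · rw [AF_sum, sum_Dy _ (by omega)]
  · rw [sum_pc R (le_trans (by exact_mod_cast Nat.lt_succ_iff.1 hd) h2)]

lemma supp_Cut2 {P R : AF} {j k m : ℕ} {N : Fin j → ℕ} (hN : ∀ i, 0 < N i)
    (h : ((∏ i, dy (N i) P) * pc R k) m ≠ 0) : (∏ i, (N i : ℝ)) * yk_T1 k < m ∧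
      (m : ℝ) < 2 ^ (j + 1) * ((∏ i, (N i : ℝ)) * yk_T1 k) := by
  obtain ⟨a, b, rfl, h1, h2⟩ := exists_of_mul_ne h
  obtain ⟨c, rfl, h3⟩ := exists_of_prod_ne _ _ h1
  obtain ⟨-, h4, h5⟩ := pc_ne h2
  have h6 : ∏ i, (N i : ℝ) ≤ ∏ i, (c i : ℝ) :=
    prod_le_prod (fun i _ => Nat.cast_nonneg _) fun i hi => by
      exact_mod_cast (dy_ne_One (h3 i hi)).1.1
  have h7 : ∏ i, (c i : ℝ) ≤ 2 ^ j * ∏ i, (N i : ℝ) := by
    have h8 : ∏ i, (c i : ℝ) ≤ ∏ i, (2 * N i : ℝ) :=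
      prod_le_prod (fun i _ => Nat.cast_nonneg _) fun i hi => by
        exact_mod_cast (dy_ne_One (h3 i hi)).1.2.le
    rwa [prod_mul_distrib, prod_const, card_univ, Fintype.card_fin] at h8
  have h8 : 0 < ∏ i, (N i : ℝ) := prod_pos fun i _ => by exact_mod_cast hN i
  have h9 : (0 : ℝ) ≤ b := Nat.cast_nonneg _
  have h10 : (0 : ℝ) < 2 ^ j * ∏ i, (N i : ℝ) := by positivity
  push_cast
  constructor
  · exact (mul_lt_mul_of_pos_left h4 h8).trans_le (mul_le_mul_of_nonneg_right h6 h9)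
  · refine (mul_le_mul_of_nonneg_right h7 h9).trans_lt
      ((mul_lt_mul_of_pos_left h5 h10).trans_eq ?_)
    ring

theorem d2Cut : CutStmt := by
  classical
  intro P R j L n X u v hP hR hu hv h1 h2 m hm
  have hF : 0 ≤ (P ^ j * R) m := (hP.pow j).mul hR m
  have hd := dec_Cut2 P R j L n h1 h2 hm
  have hq : ∀ (e : Fin j → Fin L) (k : ℕ), 0 ≤ ((∏ i, dy (2 ^ (e i : ℕ)) P) * pc R k) m :=
    fun e k => (Nn.prod fun i _ d => by
      rw [dy_apply_One]
      split_ifs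
      exacts [hP d, le_rfl]).mul (nn_pc hR k) m
  have hs : ∀ (e : Fin j → Fin L) (k : ℕ), ((∏ i, dy (2 ^ (e i : ℕ)) P) * pc R k) m ≠ 0 →
      (∏ i, ((2 ^ (e i : ℕ) : ℕ) : ℝ)) * yk_T1 k < m ∧
        (m : ℝ) < 2 ^ (j + 1) * ((∏ i, ((2 ^ (e i : ℕ) : ℕ) : ℝ)) * yk_T1 k) :=
    fun e k h => supp_Cut2 (N := fun i => 2 ^ (e i : ℕ)) (fun i => by positivity) h
  have hi : inn P R j L n u v m = ∑ e : Fin j → Fin L, ∑ k ∈ range n,
      if Ins u v (fun i => 2 ^ (e i : ℕ)) k then ((∏ i, dy (2 ^ (e i : ℕ)) P) * pc R k) m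
      else 0 := by
    rw [inn, AF_sum]
    refine sum_congr rfl fun e _ => ?_
    rw [AF_sum]
    refine sum_congr rfl fun k _ => ?_
    split_ifs <;> rfl
  have r1 := mul_nonneg hF (rg_nn (u / 2 ^ (j + 2)) (2 ^ (j + 2) * u) m)
  have r2 := mul_nonneg hF (rg_nn (v / 2 ^ (j + 2)) (2 ^ (j + 2) * v) m)
  rw [pm_apply, pm_apply, pm_apply, hi]
  by_cases hr : u < m ∧ (m : ℝ) ≤ v
  · have e1 : (P ^ j * R) m * rg u v m - (∑ e : Fin j → Fin L, ∑ k ∈ range n,
        if Ins u v (fun i => 2 ^ (e i : ℕ)) k then ((∏ i, dy (2 ^ (e i : ℕ)) P) * pc R k) m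
        else 0) = ∑ e : Fin j → Fin L, ∑ k ∈ range n,
        if Ins u v (fun i => 2 ^ (e i : ℕ)) k then 0
        else ((∏ i, dy (2 ^ (e i : ℕ)) P) * pc R k) m := by
      rw [rg, if_pos hr, mul_one, hd, ← sum_sub_distrib]
      refine sum_congr rfl fun e _ => ?_
      rw [← sum_sub_distrib]
      refine sum_congr rfl fun k _ => ?_
      split_ifs
      exacts [sub_self _, sub_zero _]
    rw [e1]
    by_cases hz : ∀ (e : Fin j → Fin L) (k : ℕ), ¬ Ins u v (fun i => 2 ^ (e i : ℕ)) k →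
        ((∏ i, dy (2 ^ (e i : ℕ)) P) * pc R k) m = 0
    · rw [sum_eq_zero fun e _ => sum_eq_zero fun k _ => ite_eq_left_iff.2 (hz e k), abs_zero]
      linarith
    · obtain ⟨e, k, h3, h4⟩ : ∃ (e : Fin j → Fin L) (k : ℕ),
          ¬ Ins u v (fun i => 2 ^ (e i : ℕ)) k ∧
            ((∏ i, dy (2 ^ (e i : ℕ)) P) * pc R k) m ≠ 0 := by
        by_contra h3
        exact hz fun e k h4 => by_contra fun h5 => h3 ⟨e, k, h4, h5⟩
      obtain ⟨h5, h6⟩ := hs e k h4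
      have h7 : |∑ e : Fin j → Fin L, ∑ k ∈ range n,
          if Ins u v (fun i => 2 ^ (e i : ℕ)) k then 0
          else ((∏ i, dy (2 ^ (e i : ℕ)) P) * pc R k) m| ≤ (P ^ j * R) m := by
        rw [abs_of_nonneg (sum_nonneg fun e _ => sum_nonneg fun k _ => by
          split_ifs
          exacts [le_rfl, hq e k]), hd]
        refine sum_le_sum fun e _ => sum_le_sum fun k _ => ?_
        split_ifs
        exacts [hq e k, le_rfl]
      refine h7.trans ?_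
      have p1 : (1 : ℝ) ≤ 2 ^ (j + 1) := one_le_pow₀ one_le_two
      have p2 : (2 : ℝ) ^ (j + 2) = 2 * 2 ^ (j + 1) := by ring
      have p3 : (0 : ℝ) < 2 ^ (j + 2) := by positivity
      unfold Ins at h3
      rcases not_and_or.1 h3 with h8 | h8
      · have h9 : rg (u / 2 ^ (j + 2)) (2 ^ (j + 2) * u) m = 1 := by
          refine if_pos ⟨(div_le_self hu.le (by linarith)).trans_lt hr.1, ?_⟩
          have h10 := mul_le_mul_of_nonneg_left (not_le.1 h8).le (zero_le_one.trans p1)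
          rw [p2]
          nlinarith
        rw [h9]
        linarith
      · have h9 : rg (v / 2 ^ (j + 2)) (2 ^ (j + 2) * v) m = 1 := by
          refine if_pos ⟨?_, hr.2.trans (le_mul_of_one_le_left hv.le (by linarith))⟩
          have h10 := mul_le_mul_of_nonneg_left h5.le (zero_le_one.trans p1)
          have h11 : (0 : ℝ) ≤ m := Nat.cast_nonneg _
          rw [div_lt_iff₀ p3, p2]
          nlinarith [not_le.1 h8]
        rw [h9]
        linarith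
  · rw [rg, if_neg hr, mul_zero, sum_eq_zero fun e _ => sum_eq_zero fun k _ =>
      ite_eq_right_iff.2 fun h3 => by_contra fun h4 =>
        hr ⟨h3.1.trans_lt (hs e k h4).1, ((hs e k h4).2.trans_le h3.2).le⟩, sub_zero, abs_zero]
    linarith

end Pool.Agent.MP_c853c5_nt.D2
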