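import Pool.Agent.MP_c853c5_nt.D.Main
import Pool.Agent.MP_c853c5_nt.S.Defs2
import Pool.Agent.MP_c853c5_nt.S.Leaf2
import Pool.Agent.MP_c853c5_nt.E.Basic

/-!
Removing the small primes from two factors.
-/

set_option autoImplicit false

open Finset Filter

namespace Pool.Agent.MP_c853c5_nt.D2

open Pool.Agent.MP_c853c5_nt.S Pool.Agent.MP_c853c5_nt.D Pool.Agent.MP_2a1f0e_nt

/-- the pointwise product with a weight -/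
noncomputable def pm (f : AF) (w : ℕ → ℝ) : AF := ⟨fun n => f n * w n, by simp⟩

/-- the smooth weight at the scale `y` -/
noncomputable def oy (y : ℝ) (n : ℕ) : ℝ := DH.om ((n : ℝ) / y)

/-- the indicator function of `(u, v]` -/
noncomputable def rg (u v : ℝ) (n : ℕ) : ℝ := if u < n ∧ (n : ℝ) ≤ v then 1 else 0

/-- the piece number `k` of the smooth partition -/
noncomputable def pc (f : AF) (k : ℕ) : AF := pm f (oy (yk_T1 k))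

/-- the rough numbers -/
noncomputable def RR (x κ : ℝ) : AF := bf x (fr κ)

/-- a majorant of a piece of the rough numbers -/
noncomputable def up (x κ : ℝ) (lam : AF) (k : ℕ) : AF :=
  if yk_T1 k < x ^ (1 / 20 : ℝ) then pc (RR x κ) k else pc (lam * zt) k

/-- the restriction to `n ≤ x ^ (19 / 20)` -/
noncomputable def low (x : ℝ) (f : AF) : AF := pm f (rg 0 (x ^ (19 / 20 : ℝ)))

/-- the number of dyadic scales -/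
noncomputable def LL (x : ℝ) : ℕ := Nat.log 2 ⌊2 * x⌋₊ + 1

/-- the number of smooth scales -/
noncomputable def nn (x : ℝ) : ℕ := ⌈8 * Real.log x⌉₊

/-- the box lies inside `(u, v]` -/
def Ins {j : ℕ} (u v : ℝ) (N : Fin j → ℕ) (k : ℕ) : Prop :=
  u ≤ (∏ i, (N i : ℝ)) * yk_T1 k ∧ 2 ^ (j + 1) * ((∏ i, (N i : ℝ)) * yk_T1 k) ≤ v

open Classical in
/-- the sum of the boxes inside `(u, v]` -/
noncomputable def inn (P R : AF) (j L n : ℕ) (u v : ℝ) : AF :=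
  ∑ e : Fin j → Fin L, ∑ k ∈ range n,
    if Ins u v (fun i => 2 ^ (e i : ℕ)) k then (∏ i, dy (2 ^ (e i : ℕ)) P) * pc R k else 0

/-- the general factors -/
noncomputable def cf {r : ℕ} (x κ z1 z2 : ℝ) (B : Fin r → Blk) (j1 j2 : ℕ) :
    Fin r ⊕ (Fin j1 ⊕ Fin j2) → AF :=
  Sum.elim (fun i => bf x (B i)) (Sum.elim (fun _ => PP x κ z1) fun _ => PP x κ z2)

/-- the error term of one box -/
noncomputable def er (x κ : ℝ) (lam e G : AF) (k1 k2 : ℕ) : ℝ :=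
  SB x (low x (G * up x κ lam k1) * pc (e * zt) k2)

/-- sieve weights -/
structure FW (x κ : ℝ) (w : ℕ) (lam e : AF) : Prop where
  b1 : ∀ d, |lam d| ≤ 1
  b2 : ∀ d, |e d| ≤ 1
  s1 : ∀ d, lam d ≠ 0 → (d : ℝ) ≤ x ^ (κ * (4 * w + 6))
  s2 : ∀ d, e d ≠ 0 → (d : ℝ) ≤ x ^ (κ * (4 * w + 6))
  maj : ∀ n, RR x κ n ≤ (lam * zt) n
  pos : ∀ n, 0 ≤ (e * zt) n
  gap : ∀ n : ℕ, (n : ℝ) ≤ 2 * x → (lam * zt) n ≤ RR x κ n + (e * zt) n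
  m1 : ∀ X : ℕ, x ^ (κ * (4 * w + 6)) ≤ X → ms X lam ≤ 4 / (κ * Real.log x)
  m2 : ∀ X : ℕ, x ^ (κ * (4 * w + 6)) ≤ X → ms X e ≤ 2 ^ 26 / 4 ^ w / (κ * Real.log x)

/-- `m` has the size `x ^ a` -/
def Cls (x a : ℝ) (m : ℕ) : Prop := x ^ a ≤ 2 * m ∧ (m : ℝ) ≤ 2 * x ^ a

/-! ### statements -/

def FWStmt : Prop := ∀ (κ : ℝ) (w : ℕ), 0 < κ → 13 ≤ w →
  ∀ᶠ x : ℝ in atTop, ∃ lam e : AF, FW x κ w lam e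

def OmStmt : Prop := ∃ C : ℝ, 0 < C ∧ ∀ (lam : AF) (D y U : ℝ) (X : ℕ), (∀ d, |lam d| ≤ 1) →
  (∀ d, lam d ≠ 0 → (d : ℝ) ≤ D) → 1 ≤ D → 0 < y → 0 ≤ U → (∀ n, 0 ≤ (lam * zt) n) →
  (∀ X' : ℕ, D ≤ X' → ms X' lam ≤ U) → ms X (pm (lam * zt) (oy y)) ≤ U + C * D / y

def TmStmt : Prop := OmStmt → ∀ (κ : ℝ) (w : ℕ), 0 < κ → κ * (4 * w + 6) ≤ 1 / 100 →
  ∀ᶠ x : ℝ in atTop, ∀ lam e : AF, FW x κ w lam e →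
    ms ⌊2 * x⌋₊ (∑ k ∈ range (nn x), up x κ lam k) ≤ 2 ^ 7 / κ ^ 2 ∧
    ∀ n : ℕ, (n : ℝ) ≤ 2 * x → (∑ k ∈ range (nn x), up x κ lam k) n ≤ x ^ (1 / 400 : ℝ)

/-- one smooth factor -/
def TaStmt : Prop := E1D → ∀ (ι : Type) [Fintype ι] (τ t η : ℝ) (K : ℕ), 1 / 3 ≤ t → t < τ →
  τ ≤ 1 / 2 → 0 < η → η ≤ 1 / 1000 → ∃ γ : ℝ, 0 < γ ∧ ∀ᶠ x : ℝ in atTop,
    ∀ (a : ι → ℝ) (b : ℝ) (N : ι → ℕ) (g : ι → AF) (lam : AF) (y : ℝ),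
      (∀ i, 0 ≤ a i ∧ a i ≤ 1) → b ≤ 1 → E1pt τ η K a b → (∀ i, Slot (N i) (g i)) →
      (∀ i, (N i : ℝ) ≤ x ^ (a i + γ)) → x ^ (b - γ) ≤ y → y ≤ x ^ (b + γ) →
      (∏ i, (N i : ℝ)) * y ≤ 2 * x → (∀ d, |lam d| ≤ 1) →
      (∀ d, lam d ≠ 0 → (d : ℝ) ≤ x ^ lev τ t η) →
      |Dl t x ((∏ i, g i) * pm (lam * zt) (oy y))| ≤ x ^ (1 - η / 10)

/-- two smooth factors -/
def TbStmt : Prop := E12D → ∀ (ι : Type) [Fintype ι] (τ t η : ℝ) (K : ℕ), 1 / 3 ≤ t → t < τ →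
  τ ≤ 1 / 2 → 0 < η → η ≤ 1 / 1000 → ∃ γ : ℝ, 0 < γ ∧ ∀ᶠ x : ℝ in atTop,
    ∀ (a : ι → ℝ) (b1 b2 : ℝ) (N : ι → ℕ) (g : ι → AF) (l1 l2 : AF) (y1 y2 : ℝ),
      (∀ i, 0 ≤ a i ∧ a i ≤ 1) → b1 ≤ 1 → b2 ≤ 1 → E12pt τ η K a b1 b2 →
      (∀ i, Slot (N i) (g i)) → (∀ i, (N i : ℝ) ≤ x ^ (a i + γ)) →
      x ^ (b1 - γ) ≤ y1 → y1 ≤ x ^ (b1 + γ) → x ^ (b2 - γ) ≤ y2 → y2 ≤ x ^ (b2 + γ) →
      (∏ i, (N i : ℝ)) * y1 * y2 ≤ 2 * x → (∀ d, |l1 d| ≤ 1) → (∀ d, |l2 d| ≤ 1) →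
      (∀ d, l1 d ≠ 0 → (d : ℝ) ≤ x ^ lev τ t η) → (∀ d, l2 d ≠ 0 → (d : ℝ) ≤ x ^ lev τ t η) →
      |Dl t x ((∏ i, g i) * pm (l1 * zt) (oy y1) * pm (l2 * zt) (oy y2))| ≤ x ^ (1 - η / 10)

/-- one box at a nominal point -/
def BoxStmt : Prop := TaStmt → TbStmt → E1D → E2D → E12D → ∀ (ι : Type) [Fintype ι]
  (τ t η η' κ : ℝ) (K w A : ℕ), 1 / 3 ≤ t → t < τ → τ ≤ 1 / 2 → 0 < η → η ≤ 1 / 1000 →
  0 < η' → 0 < κ → κ * (4 * w + 6) ≤ lev τ t η → ∃ γ : ℝ, 0 < γ ∧ ∀ᶠ x : ℝ in atTop,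
    ∀ lam e : AF, FW x κ w lam e → ∀ (pr : ι → Prop) (c : ι → ℝ) (b1 b2 : ℝ) (N : ι → ℕ)
      (g : ι → AF) (k1 k2 : ℕ), (∀ i, 0 ≤ c i) → 0 ≤ b1 → 0 ≤ b2 → ∑ i, c i + b1 + b2 = 1 →
      Alt4 τ η η' K pr c b1 b2 → (∀ i, Slot (N i) (g i)) → (∀ i n, 0 ≤ g i n) → Near x γ c N →
      (∀ i, pr i → ∃ P Q : ℕ, g i = prI P Q) →
      x ^ (b1 - γ) ≤ yk_T1 k1 → yk_T1 k1 ≤ x ^ (b1 + γ) →
      x ^ (b2 - γ) ≤ yk_T1 k2 → yk_T1 k2 ≤ x ^ (b2 + γ) →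
      (∏ i, (N i : ℝ)) * ⌈yk_T1 k1⌉₊ * ⌈yk_T1 k2⌉₊ ≤ 2 * x →
      |Dl t x ((∏ i, g i) * pc (RR x κ) k1 * pc (RR x κ) k2)| ≤ x / Real.log x ^ A +
        2 * er x κ lam e (∏ i, g i) k1 k2 + 2 * er x κ lam e (∏ i, g i) k2 k1

/-- the nominal point -/
def NomStmt2 : Prop := ∀ (ι₁ ι₂ : Type) [Fintype ι₁] [Fintype ι₂] (l1 u1 : ι₁ → ℝ)
  (l2 u2 : ι₂ → ℝ) (lo hi : ℝ), (∀ i, 0 ≤ l2 i) → ∀ᶠ x : ℝ in atTop,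
    ∀ (m1 : ι₁ → ℕ) (m2 : ι₂ → ℕ) (n1 n2 : ℕ),
      (∀ i, 1 ≤ m1 i ∧ x ^ l1 i ≤ m1 i ∧ (m1 i : ℝ) ≤ x ^ u1 i) →
      (∀ i, x ^ l2 i ≤ m2 i ∧ (m2 i : ℝ) ≤ x ^ u2 i) → 1 ≤ n1 → 1 ≤ n2 →
      x / 2 < (∏ i, (m1 i : ℝ)) * n1 * ((∏ i, (m2 i : ℝ)) * n2) →
      (∏ i, (m1 i : ℝ)) * n1 * ((∏ i, (m2 i : ℝ)) * n2) ≤ 2 * x →
      x ^ lo ≤ (∏ i, (m2 i : ℝ)) * n2 → (∏ i, (m2 i : ℝ)) * n2 ≤ x ^ hi →
      ∃ (a : ι₁ → ℝ) (q : ι₂ → ℝ) (b1 b2 : ℝ),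
        (∀ i, 0 ≤ a i ∧ l1 i ≤ a i ∧ a i ≤ u1 i ∧ Cls x (a i) (m1 i)) ∧
        (∀ i, l2 i ≤ q i ∧ q i ≤ u2 i ∧ Cls x (q i) (m2 i)) ∧ 0 ≤ b1 ∧ Cls x b1 n1 ∧
        0 ≤ b2 ∧ Cls x b2 n2 ∧ ∑ i, a i + ∑ i, q i + b1 + b2 = 1 ∧
        lo ≤ ∑ i, q i + b2 ∧ ∑ i, q i + b2 ≤ hi

/-- the alternative of `DustOK2` at fixed parameters -/
def Alt2 {r : ℕ} (τ η η' κ z1 z2 lo hi : ℝ) (K : ℕ) (B : Fin r → Blk) : Prop :=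
  ∀ (j1 j2 : ℕ) (a : Fin r → ℝ) (q1 : Fin j1 → ℝ) (q2 : Fin j2 → ℝ) (b1 b2 : ℝ), InBox B a →
    (∀ i, κ ≤ q1 i ∧ q1 i ≤ z1) → (∀ i, κ ≤ q2 i ∧ q2 i ≤ z2) → 0 ≤ b1 → 0 ≤ b2 →
    ∑ i, a i + (∑ i, q1 i + ∑ i, q2 i) + b1 + b2 = 1 →
    lo ≤ ∑ i, q2 i + b2 → ∑ i, q2 i + b2 ≤ hi →
    Alt4 τ η η' K (Sum.elim (fun i => (B i).IsP) fun _ : Fin j1 ⊕ Fin j2 => True)
      (Sum.elim a (Sum.elim q1 q2)) b1 b2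

/-- the bound for the boxes inside the range -/
def OneOK2 {r : ℕ} (t κ z1 z2 lo hi : ℝ) (w : ℕ) (B : Fin r → Blk) (j1 j2 : ℕ) : Prop :=
  ∀ A : ℕ, ∀ᶠ x : ℝ in atTop, ∀ lam e : AF, FW x κ w lam e →
    ∀ (N : Fin r ⊕ (Fin j1 ⊕ Fin j2) → ℕ) (k1 k2 : ℕ), (∀ i, 1 ≤ N i) →
      Ins (x ^ lo) (x ^ hi) (fun i => N (.inr (.inr i))) k2 →
      |Dl t x ((∏ i, dy (N i) (cf x κ z1 z2 B j1 j2 i)) * pc (RR x κ) k1 * pc (RR x κ) k2)| ≤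
        x / Real.log x ^ A + 2 * er x κ lam e (∏ i, dy (N i) (cf x κ z1 z2 B j1 j2 i)) k1 k2 +
          2 * er x κ lam e (∏ i, dy (N i) (cf x κ z1 z2 B j1 j2 i)) k2 k1

def OneStmt2 : Prop := BoxStmt → NomStmt2 → TaStmt → TbStmt → E1D → E2D → E12D →
  ∀ (τ t η η' κ z1 z2 lo hi : ℝ) (K w r : ℕ) (B : Fin r → Blk), 1 / 3 ≤ t → t < τ →
    τ ≤ 1 / 2 → 0 < η → η ≤ 1 / 1000 → 0 < η' → 0 < κ → κ * (4 * w + 6) ≤ lev τ t η →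
    Alt2 τ η η' κ z1 z2 lo hi K B → ∀ j1 j2, OneOK2 t κ z1 z2 lo hi w B j1 j2

/-- the long sum with a long free variable -/
def ErrStmt : Prop := ∀ (κ : ℝ) (w : ℕ), 0 < κ → κ * (4 * w + 6) ≤ 1 / 100 →
  ∀ᶠ x : ℝ in atTop, ∀ lam e G : AF, FW x κ w lam e → Nn G →
    (∀ n : ℕ, (n : ℝ) ≤ 2 * x → G n ≤ x ^ (1 / 100 : ℝ)) →
    SB x (low x G * (e * zt)) ≤
      2 ^ 27 / 4 ^ w / κ * ms ⌊2 * x⌋₊ G * (x / Real.log x) + x ^ (99 / 100 : ℝ)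

/-- the sum of the error terms -/
def ESumStmt : Prop := ErrStmt → TmStmt → OmStmt → ∀ (ι : Type) [Fintype ι] [DecidableEq ι]
  (κ : ℝ) (w : ℕ), 0 < κ → κ * (4 * w + 6) ≤ 1 / 100 → ∀ᶠ x : ℝ in atTop,
    ∀ (lam e : AF) (c : ι → AF), FW x κ w lam e → (∀ i n, 0 ≤ c i n ∧ c i n ≤ 1) →
      ∑ f : ι → Fin (LL x), ∑ k1 ∈ range (nn x), ∑ k2 ∈ range (nn x),
        er x κ lam e (∏ i, dy (2 ^ (f i : ℕ)) (c i)) k1 k2 ≤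
      2 ^ 34 / 4 ^ w / κ ^ 3 * (∏ i, ms ⌊2 * x⌋₊ (c i)) * (x / Real.log x) + x ^ (99 / 100 : ℝ)

open Classical in
/-- the expansion into boxes -/
def ExpStmt : Prop := ∀ (t x κ z1 z2 u v : ℝ) (r j1 j2 : ℕ) (B : Fin r → Blk), 3 ≤ x →
  Dl t x ((∏ i, bf x (B i)) * PP x κ z1 ^ j1 * RR x κ *
      inn (PP x κ z2) (RR x κ) j2 (LL x) (nn x) u v) =
    ∑ f : Fin r ⊕ (Fin j1 ⊕ Fin j2) → Fin (LL x), ∑ k1 ∈ range (nn x), ∑ k2 ∈ range (nn x),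
      if Ins u v (fun i => 2 ^ (f (.inr (.inr i)) : ℕ)) k2 then
        Dl t x ((∏ i, dy (2 ^ (f i : ℕ)) (cf x κ z1 z2 B j1 j2 i)) * pc (RR x κ) k1 *
          pc (RR x κ) k2) else 0

/-- the part inside the range -/
def InStmt : Prop := ExpStmt → ESumStmt → ErrStmt → TmStmt → OmStmt → FWStmt →
  ∀ (t κ z1 z2 lo hi M m : ℝ) (w r j1 j2 : ℕ) (B : Fin r → Blk), 0 < κ → 13 ≤ w →
    κ * (4 * w + 6) ≤ 1 / 100 → OneOK2 t κ z1 z2 lo hi w B j1 j2 →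
    (∀ᶠ x : ℝ in atTop, ∀ i, ms ⌊2 * x⌋₊ (bf x (B i)) ≤ M) →
    (∀ᶠ x : ℝ in atTop, ms ⌊2 * x⌋₊ (PP x κ z1) ≤ m) →
    (∀ᶠ x : ℝ in atTop, ms ⌊2 * x⌋₊ (PP x κ z2) ≤ m) → ∀ ε : ℝ, 0 < ε → ∀ᶠ x : ℝ in atTop,
      |Dl t x ((∏ i, bf x (B i)) * PP x κ z1 ^ j1 * RR x κ *
        inn (PP x κ z2) (RR x κ) j2 (LL x) (nn x) (x ^ lo) (x ^ hi))| ≤
      (ε + 2 ^ 36 / 4 ^ w / κ ^ 3 * M ^ r * m ^ j1 * m ^ j2) * (x / Real.log x)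

/-- the boxes that meet the boundary of the range -/
def CutStmt : Prop := ∀ (P R : AF) (j L n X : ℕ) (u v : ℝ), Nn P → Nn R → 0 < u → 0 < v →
  X < 2 ^ L → (X : ℝ) ≤ yk_T1 n → ∀ m : ℕ, m ≤ X →
    |pm (P ^ j * R) (rg u v) m - inn P R j L n u v m| ≤
      pm (P ^ j * R) (rg (u / 2 ^ (j + 2)) (2 ^ (j + 2) * u)) m +
        pm (P ^ j * R) (rg (v / 2 ^ (j + 2)) (2 ^ (j + 2) * v)) m

/-- a product of functions on rough numbers -/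
def BndStmt : Prop := ∀ (ι : Type) [Fintype ι] (κ : ℝ), 0 < κ → ∃ C : ℝ, 0 < C ∧
  ∀ᶠ x : ℝ in atTop, ∀ f : ι → AF,
    (∀ i n, 0 ≤ f i n ∧ f i n ≤ 1 ∧ (f i n ≠ 0 → Rough x κ n)) →
    ∀ n : ℕ, (n : ℝ) ≤ 2 * x → (∏ i, f i) n ≤ C * RR x κ n

/-- the mass of a layer -/
def LamStmt : Prop := FWStmt → ∀ κ c C ε : ℝ, 0 < κ → 1 / 100 ≤ c → 1 ≤ C → 0 < ε →
  ∀ᶠ x : ℝ in atTop, ms ⌊2 * x⌋₊ (pm (RR x κ) (rg (x ^ c / C) (C * x ^ c))) ≤ ε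

/-- a layer is negligible for every width -/
def LayStmt : Prop := LamStmt → FWStmt → ∀ κ c C s ε : ℝ, 0 < κ → 1 / 100 ≤ c →
  c ≤ 99 / 100 → 1 ≤ C → 0 < s → s < 1 / 2 → 0 < ε → ∀ᶠ x : ℝ in atTop,
    SS x (x ^ (-s)) (RR x κ * pm (RR x κ) (rg (x ^ c / C) (C * x ^ c))) ≤ ε * (x / Real.log x)

/-- from the boxes inside to the sharp range -/
def RowStmt2 : Prop := CutStmt → BndStmt → LayStmt → LamStmt → FWStmt →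
  ∀ (t κ z1 z2 lo hi E : ℝ) (r j1 j2 : ℕ) (B : Fin r → Blk), 0 < t → t < 1 / 2 → 0 < κ →
    (∀ i, κ ≤ (B i).a) → 1 / 100 ≤ lo → lo ≤ hi → hi ≤ 99 / 100 →
    (∀ ε : ℝ, 0 < ε → ∀ᶠ x : ℝ in atTop,
      |Dl t x ((∏ i, bf x (B i)) * PP x κ z1 ^ j1 * RR x κ *
        inn (PP x κ z2) (RR x κ) j2 (LL x) (nn x) (x ^ lo) (x ^ hi))| ≤
      (ε + E) * (x / Real.log x)) →
    ∀ ε : ℝ, 0 < ε → ∀ᶠ x : ℝ in atTop,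
      |Dl t x ((∏ i, bf x (B i)) * PP x κ z1 ^ j1 * RR x κ *
        pm (PP x κ z2 ^ j2 * RR x κ) (rg (x ^ lo) (x ^ hi)))| ≤ (ε + E) * (x / Real.log x)

/-- summation over the number of small primes of the second factor -/
def SumStmt2 : Prop := ∀ (t κ z lo hi E m : ℝ) (H : ℝ → AF), 0 < t → t < 1 / 2 → 0 < κ →
  κ ≤ z → 0 ≤ E → 0 ≤ m →
  (∀ δ : ℝ, 0 < δ → ∀ᶠ x : ℝ in atTop, ∀ n : ℕ, (n : ℝ) ≤ 2 * x → |H x n| ≤ x ^ δ) →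
  (∀ (j : ℕ) (ε : ℝ), 0 < ε → ∀ᶠ x : ℝ in atTop,
    |Dl t x (H x * pm (PP x κ z ^ j * RR x κ) (rg (x ^ lo) (x ^ hi)))| ≤
      (ε + E * m ^ j) * (x / Real.log x)) →
  ∀ ε : ℝ, 0 < ε → ∀ᶠ x : ℝ in atTop,
    |Dl t x (H x * bf x ⟨lo, hi, z, none⟩)| ≤ (ε + E * Real.exp m) * (x / Real.log x)

/-! ### basic facts -/

lemma pm_apply (f : AF) (w : ℕ → ℝ) (n : ℕ) : pm f w n = f n * w n := rfl

lemma oy_nn {y : ℝ} (hy : 0 < y) (n : ℕ) : 0 ≤ oy y n := E.om_nonneg (by positivity)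

lemma oy_le (y : ℝ) (n : ℕ) : oy y n ≤ 1 := by
  have h1 := DH.psi_le_one (3 / 4 * ((n : ℝ) / y))
  have h2 := DH.psi_nonneg ((n : ℝ) / y)
  unfold oy DH.om
  linarith

lemma oy_ne {y : ℝ} (hy : 0 < y) {n : ℕ} (h : oy y n ≠ 0) : y < n ∧ (n : ℝ) < 2 * y := by
  have h8 : ¬((n : ℝ) / y ≤ 1 ∨ 5 / 3 ≤ (n : ℝ) / y) := fun k => h (DH.om_eq_zero k)
  rw [not_or, not_le, not_le, one_lt_div hy, div_lt_iff₀ hy] at h8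
  exact ⟨h8.1, by linarith [h8.2]⟩

lemma rg_nn (u v : ℝ) (n : ℕ) : 0 ≤ rg u v n := by
  unfold rg
  split_ifs <;> norm_num

lemma rg_le (u v : ℝ) (n : ℕ) : rg u v n ≤ 1 := by
  unfold rg
  split_ifs <;> norm_num

lemma nn_pm {f : AF} {w : ℕ → ℝ} (hf : Nn f) (hw : ∀ n, 0 ≤ w n) : Nn (pm f w) :=
  fun n => mul_nonneg (hf n) (hw n)

lemma pm_le {f : AF} {w : ℕ → ℝ} (hf : Nn f) (hw : ∀ n, w n ≤ 1) : Le (pm f w) f :=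
  fun n => mul_le_of_le_one_right (hf n) (hw n)

lemma nn_pc {f : AF} (hf : Nn f) (k : ℕ) : Nn (pc f k) := nn_pm hf (oy_nn (yk_pos_T1 k))

lemma pc_ne {f : AF} {k n : ℕ} (h : pc f k n ≠ 0) :
    f n ≠ 0 ∧ yk_T1 k < n ∧ (n : ℝ) < 2 * yk_T1 k :=
  ⟨left_ne_zero_of_mul h, oy_ne (yk_pos_T1 k) (right_ne_zero_of_mul h)⟩

lemma nn_RR (x κ : ℝ) : Nn (RR x κ) := nn_bf _ _

lemma FW.nn_lam {x κ : ℝ} {w : ℕ} {lam e : AF} (h : FW x κ w lam e) : Nn (lam * zt) :=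
  fun n => (nn_RR x κ n).trans (h.maj n)

lemma FW.nn_up {x κ : ℝ} {w : ℕ} {lam e : AF} (h : FW x κ w lam e) (k : ℕ) :
    Nn (up x κ lam k) := by
  unfold up
  split_ifs
  exacts [nn_pc (nn_RR x κ) k, nn_pc h.nn_lam k]

lemma FW.le_up {x κ : ℝ} {w : ℕ} {lam e : AF} (h : FW x κ w lam e) (k : ℕ) :
    Le (pc (RR x κ) k) (up x κ lam k) := by
  unfold up
  split_ifs
  exacts [Le.refl _, fun n => mul_le_mul_of_nonneg_right (h.maj n) (oy_nn (yk_pos_T1 k) n)]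

lemma FW.er_nn {x κ : ℝ} {w : ℕ} {lam e G : AF} (h : FW x κ w lam e) (hx : 0 ≤ x) (hG : Nn G)
    (k1 k2 : ℕ) : 0 ≤ er x κ lam e G k1 k2 :=
  SB_nonneg hx fun n _ => (nn_pm (hG.mul (h.nn_up k1)) (rg_nn _ _)).mul (nn_pc h.pos k2) n

/-- the pieces add up -/
lemma sum_pc (f : AF) {n m : ℕ} (h : (m : ℝ) ≤ yk_T1 n) : (∑ k ∈ range n, pc f k) m = f m := by
  rcases Nat.eq_zero_or_pos m with rfl | hm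
  · simp
  · rw [AF_sum]
    have := tel_T1 (l := m) (by exact_mod_cast hm) h
    calc _ = f m * ∑ k ∈ range n, DH.om ((m : ℝ) / yk_T1 k) := by rw [mul_sum]; rfl
      _ = _ := by rw [this, mul_one]

lemma yk_mono : Monotone yk_T1 := fun _ _ h =>
  mul_le_mul_of_nonneg_left (pow_le_pow_right₀ (by norm_num) h) (by norm_num)

lemma sum_pc_le {f : AF} (hf : Nn f) (s : Finset ℕ) : Le (∑ k ∈ s, pc f k) f := by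
  intro m
  obtain ⟨n, hn⟩ := pow_unbounded_of_one_lt ((m : ℝ) * (4 / 3)) (show (1 : ℝ) < 4 / 3 by norm_num)
  have h1 : (m : ℝ) ≤ yk_T1 (max n (s.sup id + 1)) := by
    refine le_trans ?_ (yk_mono (le_max_left _ _))
    unfold yk_T1
    linarith
  rw [← sum_pc f h1, AF_sum, AF_sum]
  refine sum_le_sum_of_subset_of_nonneg (fun k hk => mem_range.2 ?_) fun k _ _ => nn_pc hf k m
  exact lt_of_lt_of_le (Nat.lt_succ_of_le (le_sup (f := id) hk)) (le_max_right _ _)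

lemma LL_big {x : ℝ} : ⌊2 * x⌋₊ < 2 ^ LL x := Nat.lt_pow_succ_log_self one_lt_two _

lemma nn_big {x : ℝ} (hx : 3 ≤ x) : 2 * x ≤ yk_T1 (nn x) := big_T1 hx

/-- the divisor bound for products -/
lemma div_all (ι : Type) [Fintype ι] {δ : ℝ} (hδ : 0 < δ) : ∀ᶠ x : ℝ in atTop, ∀ f : ι → AF,
    (∀ i d, |f i d| ≤ 1) → ∀ n : ℕ, (n : ℝ) ≤ 2 * x → |(∏ i, f i) n| ≤ x ^ δ := by
  filter_upwards [div_Id (Fintype.card ι) 1 hδ, eventually_ge_atTop 2] with x ⟨Δ, h1, h2, h3⟩ hx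
    f hf n hn
  have h4 : n ≤ ⌊x ^ 2⌋₊ := Nat.le_floor (by nlinarith)
  refine (prod_le_Id univ f (fun i _ => hf i) h1 h2 n h4).trans (le_trans ?_ h3)
  rw [Nat.cast_one, one_mul, card_univ]
  exact pow_le_pow_right₀ h1 (Nat.le_succ _)

end Pool.Agent.MP_c853c5_nt.D2
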