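import Pool.Agent.MP_c853c5_nt.D2.Defs

set_option autoImplicit false

open Finset Filter

namespace Pool.Agent.MP_c853c5_nt.D2

open Pool.Agent.MP_c853c5_nt.S Pool.Agent.MP_c853c5_nt.D

lemma low_sum_ESum2 {ι : Type*} (x : ℝ) (s : Finset ι) (f : ι → AF) :
    low x (∑ i ∈ s, f i) = ∑ i ∈ s, low x (f i) := by
  ext n
  simp only [low, pm_apply, AF_sum, sum_mul]

lemma mul_ESum2 (X : ℕ) {f g : AF} (hf : Nn f) (hg : Nn g) : ms X (f * g) ≤ ms X f * ms X g := by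
  have h0 : ∀ p : ℕ × ℕ, 0 ≤ f p.1 / p.1 * (g p.2 / p.2) := fun p =>
    mul_nonneg (div_nonneg (hf _) (Nat.cast_nonneg _)) (div_nonneg (hg _) (Nat.cast_nonneg _))
  simp only [ms, ArithmeticFunction.mul_apply, sum_div]
  rw [sum_mul_sum, ← sum_product']
  refine le_trans (sum_le_sum fun m hm => ?_) (sum_fiberwise_le_sum_of_sum_fiber_nonneg
    (t := Icc 1 X) (g := fun p : ℕ × ℕ => p.1 * p.2) fun y _ => sum_nonneg fun p _ => h0 p)
  refine le_trans (sum_le_sum fun p hp => ?_) (sum_le_sum_of_subset_of_nonneg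
    (s := m.divisorsAntidiagonal) (fun p hp => ?_) fun p _ _ => h0 p)
  · rw [← (Nat.mem_divisorsAntidiagonal.1 hp).1, Nat.cast_mul, div_mul_div_comm]
  · have h1 := Nat.fst_mem_divisors_of_mem_antidiagonal hp
    have h2 := Nat.snd_mem_divisors_of_mem_antidiagonal hp
    exact mem_filter.2 ⟨mem_product.2
      ⟨mem_Icc.2 ⟨Nat.pos_of_mem_divisors h1, (Nat.divisor_le h1).trans (mem_Icc.1 hm).2⟩,
        mem_Icc.2 ⟨Nat.pos_of_mem_divisors h2, (Nat.divisor_le h2).trans (mem_Icc.1 hm).2⟩⟩,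
      (Nat.mem_divisorsAntidiagonal.1 hp).1⟩

lemma prod_ESum2 {ι : Type*} (X : ℕ) (s : Finset ι) {f : ι → AF} (hf : ∀ i, Nn (f i)) :
    ms X (∏ i ∈ s, f i) ≤ ∏ i ∈ s, ms X (f i) := by
  classical
  induction s using Finset.induction_on with
  | empty =>
    simp only [prod_empty, ms, ArithmeticFunction.one_apply, ite_div, zero_div, sum_ite_eq']
    split_ifs <;> norm_num
  | insert a s ha ih =>
    rw [prod_insert ha, prod_insert ha]
    exact (mul_ESum2 X (hf a) (Nn.prod fun i _ => hf i)).trans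
      (mul_le_mul_of_nonneg_left ih (ms_nn_One X (hf a)))

lemma dy_ESum2 (L : ℕ) {c : AF} (hc : Nn c) : Le (∑ e : Fin L, dy (2 ^ (e : ℕ)) c) c := by
  intro m
  rw [AF_sum]
  rcases lt_or_ge m (2 ^ L) with h | h
  · exact (sum_Dy c h).le
  · refine (sum_eq_zero fun e _ => if_neg fun k => k.2.not_ge (le_trans ?_ h)).trans_le (hc m)
    rw [← pow_succ']
    exact Nat.pow_le_pow_right two_pos e.2

theorem d2ESum : ESumStmt := by
  intro hE hT hO ι _ _ κ w hκ hw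
  have hδ : (0 : ℝ) < 1 / 400 := by norm_num
  filter_upwards [hE κ w hκ hw, hT hO κ w hκ hw, div_all ι hδ, div_Id 0 1 hδ,
    eventually_ge_atTop 2] with x h1 h2 h3 ⟨Δ, _, d1, d2⟩ hx lam e c fw hc
  obtain ⟨t1, t2⟩ := h2 lam e fw
  have x0 : 0 < x := by linarith
  have c0 : ∀ i, Nn (c i) := fun i n => (hc i n).1
  have T0 : Nn (∑ k ∈ range (nn x), up x κ lam k) := Nn.sum fun k _ => fw.nn_up k
  have P0 : Nn (∏ i, c i) := Nn.prod fun i _ => c0 i
  have e1 : ∑ f : ι → Fin (LL x), ∑ k1 ∈ range (nn x), ∑ k2 ∈ range (nn x),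
      er x κ lam e (∏ i, dy (2 ^ (f i : ℕ)) (c i)) k1 k2 =
      SB x (low x ((∏ i, ∑ f : Fin (LL x), dy (2 ^ (f : ℕ)) (c i)) *
        ∑ k ∈ range (nn x), up x κ lam k) * ∑ k ∈ range (nn x), pc (e * zt) k) := by
    rw [prod_univ_sum, Fintype.piFinset_univ, sum_mul_sum]
    simp only [low_sum_ESum2, sum_mul, SB_sum]
    simp only [mul_sum, SB_sum, er]
  generalize ∑ k ∈ range (nn x), up x κ lam k = T at t1 t2 T0 e1
  have e2 : Le (low x ((∏ i, ∑ f : Fin (LL x), dy (2 ^ (f : ℕ)) (c i)) * T))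
      (low x ((∏ i, c i) * T)) := fun n => mul_le_mul_of_nonneg_right
    (Le.mul_right T0 (Le.prod (fun i _ => Nn.sum fun f _ n => (dy_nn_One _ (hc i) n).1)
      fun i _ => dy_ESum2 _ (c0 i)) n) (rg_nn _ _ n)
  have e3 := h1 lam e ((∏ i, c i) * T) fw (P0.mul T0) fun n hn => by
    have v : ∀ d : ℕ, d ∣ n → n ≠ 0 → (d : ℝ) ≤ 2 * x := fun d hd h0 =>
      le_trans (by exact_mod_cast Nat.le_of_dvd (Nat.pos_of_ne_zero h0) hd) hn
    rcases eq_or_ne n 0 with rfl | h0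
    · rw [ArithmeticFunction.map_zero]
      positivity
    have v1 := B.abs_mul_apply_le (f := ∏ i, c i) (g := T) (n := n) (A := x ^ (1 / 400 : ℝ))
      (B := x ^ (1 / 400 : ℝ)) (by positivity)
      (fun d hd => h3 c (fun i d => abs_le.2 ⟨by linarith [(hc i d).1], (hc i d).2⟩) d (v d hd h0))
      fun d hd => (abs_of_nonneg (T0 d)).trans_le (t2 d (v d hd h0))
    have v2 : (n.divisors.card : ℝ) ≤ x ^ (1 / 400 : ℝ) :=
      (d1 n (Nat.le_floor (by nlinarith))).trans (by simpa using d2)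
    refine (le_abs_self _).trans (v1.trans
      ((mul_le_mul_of_nonneg_right v2 (by positivity)).trans ?_))
    rw [← Real.rpow_add x0, ← Real.rpow_add x0]
    exact Real.rpow_le_rpow_of_exponent_le (by linarith) (by norm_num)
  have e4 : ms ⌊2 * x⌋₊ ((∏ i, c i) * T) ≤ (∏ i, ms ⌊2 * x⌋₊ (c i)) * (2 ^ 7 / κ ^ 2) :=
    (mul_ESum2 _ P0 T0).trans (mul_le_mul (prod_ESum2 _ _ c0) t1 (ms_nn_One _ T0)
      (prod_nonneg fun i _ => ms_nn_One _ (c0 i)))
  have e5 : 0 ≤ x / Real.log x := div_nonneg x0.le (Real.log_nonneg (by linarith))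
  rw [e1]
  refine (SB_mono x0.le fun n _ => Le.mul e2 (sum_pc_le fw.pos _)
    (nn_pm (P0.mul T0) (rg_nn _ _)) (Nn.sum fun k _ => nn_pc fw.pos k) n).trans (e3.trans ?_)
  refine add_le_add_left ((mul_le_mul_of_nonneg_right (mul_le_mul_of_nonneg_left e4
    (by positivity)) e5).trans_eq ?_) _
  field_simp

end Pool.Agent.MP_c853c5_nt.D2
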