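import Pool.Agent.MP_c853c5_nt.D2.Defs

/-!
The expansion into boxes.
-/

set_option autoImplicit false

open Finset Filter

namespace Pool.Agent.MP_c853c5_nt.D2

open Pool.Agent.MP_c853c5_nt.S Pool.Agent.MP_c853c5_nt.D

lemma prod_Exp2 {ι : Type} [Fintype ι] [DecidableEq ι] (c : ι → AF) {X L : ℕ} (h : X ≤ 2 ^ L) :
    ∀ d < X, (∏ i, c i) d = (∑ e : ι → Fin L, ∏ i, dy (2 ^ (e i : ℕ)) (c i)) d := by
  rw [← Fintype.piFinset_univ,
    ← prod_univ_sum (fun _ => univ) fun i (e : Fin L) => dy (2 ^ (e : ℕ)) (c i)]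
  exact prod_Dy _ fun i d hd => by rw [AF_sum, sum_Dy _ (hd.trans_le h)]

lemma sum_Exp2 {α β γ M : Type} [Fintype α] [DecidableEq α] [Fintype β] [DecidableEq β]
    [Fintype γ] [AddCommMonoid M] (F : (α ⊕ β → γ) → M) :
    ∑ f, F f = ∑ a : α → γ, ∑ b : β → γ, F (Sum.elim a b) := by
  rw [← (Equiv.sumArrowEquivProdArrow α β γ).symm.sum_comp, Fintype.sum_prod_type]
  rfl

theorem d2Exp : ExpStmt := by
  intro t x κ z1 z2 u v r j1 j2 B hx
  have hL : ⌊2 * x⌋₊ + 1 ≤ 2 ^ LL x := LL_big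
  have hR : ∀ d < ⌊2 * x⌋₊ + 1, RR x κ d = (∑ k ∈ range (nn x), pc (RR x κ) k) d := fun d hd =>
    (sum_pc _ (((Nat.le_floor_iff (by linarith)).1 (Nat.lt_succ_iff.1 hd)).trans
      (nn_big hx))).symm
  have hP : PP x κ z1 ^ j1 = ∏ _i : Fin j1, PP x κ z1 := by simp
  rw [hP, Dl_congr t fun n hn => mul_Dy (mul_Dy (mul_Dy (prod_Exp2 _ hL) (prod_Exp2 _ hL)) hR)
    (fun _ _ => rfl) n (Nat.lt_succ_of_le (Nat.le_floor hn.2)), sum_Exp2, sum_mul, sum_mul,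
    sum_mul, Dl_sum]
  refine sum_congr rfl fun e0 _ => ?_
  rw [sum_Exp2, mul_sum univ, sum_mul, sum_mul, Dl_sum]
  refine sum_congr rfl fun e1 _ => ?_
  rw [inn, mul_sum univ, Dl_sum]
  refine sum_congr rfl fun e2 _ => ?_
  rw [mul_sum (range (nn x)) (pc (RR x κ)), sum_mul, Dl_sum]
  refine sum_congr rfl fun k1 _ => ?_
  rw [mul_sum, Dl_sum]
  refine sum_congr rfl fun k2 _ => ?_
  simp only [Sum.elim_inr, Sum.elim_inl, Fintype.prod_sum_type, cf]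
  by_cases h : Ins u v (fun i => 2 ^ (e2 i : ℕ)) k2
  · rw [if_pos h]
    refine Eq.trans ?_ (if_pos h).symm
    congr 1
    ring
  · rw [if_neg h, mul_zero, Dl_zero]
    exact (if_neg h).symm

end Pool.Agent.MP_c853c5_nt.D2
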