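import Pool.Agent.MP_c853c5_nt.D2.Defs

set_option autoImplicit false

open Finset Filter

namespace Pool.Agent.MP_c853c5_nt.D2

open Pool.Agent.MP_c853c5_nt.S Pool.Agent.MP_c853c5_nt.D

lemma le_FW2 {x κ : ℝ} (hx : 2 ≤ x) (d : ℕ) : RR x κ d ≤ Z.rgh ⌊x ^ κ⌋₊ d := by
  unfold Z.rgh
  split_ifs with h
  · exact bf_le_one _ _ _
  · refine (bf_of_not fun k => h fun p hp hd => ?_).le
    exact (Nat.floor_lt (by positivity)).2 (k.2.2.2.1 p hp hd)

lemma ms_FW2 {v : AF} {D X : ℕ} (h : ∀ d, v d ≠ 0 → d ≤ D) (hX : D ≤ X) :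
    ms X v = ∑ d ∈ Icc 1 D, v d / d := by
  refine (sum_subset (Icc_subset_Icc_right hX) fun d hd hn => ?_).symm
  have : v d = 0 := by_contra fun k => hn (mem_Icc.2 ⟨(mem_Icc.1 hd).1, h d k⟩)
  rw [this, zero_div]

theorem d2FW : FWStmt := by
  intro κ w hκ hw
  filter_upwards [eventually_ge_atTop 2, (tendsto_rpow_atTop hκ).eventually_ge_atTop 2]
    with x hx h2
  have hz : 2 ≤ ⌊x ^ κ⌋₊ := Nat.le_floor (by exact_mod_cast h2)
  obtain ⟨u, v, a1, a2, a3, a4, a5⟩ := Z.fl_all w _ hw hz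
  have u0 : u 0 = 0 := by_contra fun h => not_squarefree_zero (a2 0 (Or.inl h)).1
  have v0 : v 0 = 0 := by_contra fun h => not_squarefree_zero (a2 0 (Or.inr h)).1
  obtain ⟨u, rfl⟩ : ∃ U : AF, ⇑U = u := ⟨⟨u, u0⟩, rfl⟩
  obtain ⟨v, rfl⟩ : ∃ U : AF, ⇑U = v := ⟨⟨v, v0⟩, rfl⟩
  have hx0 : 0 < x := by linarith
  have b1 : ((⌊x ^ κ⌋₊ ^ (4 * w + 6) : ℕ) : ℝ) ≤ x ^ (κ * (4 * w + 6)) := by
    rw [Nat.cast_pow]
    refine (pow_le_pow_left₀ (Nat.cast_nonneg _) (Nat.floor_le (by positivity)) _).trans ?_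
    rw [← Real.rpow_mul_natCast hx0.le]
    refine Real.rpow_le_rpow_of_exponent_le (by linarith) ?_
    push_cast
    exact le_rfl
  have b2 : ∀ d, u d ≠ 0 ∨ v d ≠ 0 → (d : ℝ) ≤ x ^ (κ * (4 * w + 6)) := fun d h =>
    le_trans (by exact_mod_cast (a2 d h).2.1) b1
  have c1 : (2 : ℝ) ≤ ⌊x ^ κ⌋₊ := by exact_mod_cast hz
  have c2 := Nat.lt_floor_add_one (x ^ κ)
  have c3 : κ * Real.log x ≤ 2 * Real.log ⌊x ^ κ⌋₊ := by
    rw [← Real.log_rpow hx0, ← Nat.cast_ofNat, ← Real.log_pow]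
    exact Real.log_le_log (by positivity) (by nlinarith)
  have c4 : 0 < Real.log x := Real.log_pos (by linarith)
  have c5 : 0 < κ * Real.log x / 2 := by positivity
  have z : ∀ (f : AF) (n : ℕ), (f * zt) n = ∑ d ∈ n.divisors, f d := fun f n => by
    rw [zt, ArithmeticFunction.coe_mul_zeta_apply]
  refine ⟨u, v, fun d => (a1 d).1, fun d => (a1 d).2, fun d h => b2 d (Or.inl h),
    fun d h => b2 d (Or.inr h), fun n => ?_, fun n => ?_, fun n hn => ?_, fun X hX => ?_,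
    fun X hX => ?_⟩
  · rcases Nat.eq_zero_or_pos n with rfl | h
    · simp
    · rw [z]
      exact (le_FW2 hx n).trans (a3 n h).1
  · rcases Nat.eq_zero_or_pos n with rfl | h
    · simp
    · rw [z]
      linarith [(a3 n h).1, (a3 n h).2]
  · rcases Nat.eq_zero_or_pos n with rfl | h
    · simp
    · rw [z, z, RR, bf_T1R hx h.ne' hn]
      exact (a3 n h).2
  · rw [ms_FW2 (fun d h => (a2 d (Or.inl h)).2.1) (by exact_mod_cast b1.trans hX)]
    refine a5.trans ((div_le_div_of_nonneg_left (by positivity) c5 (by linarith)).trans ?_)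
    apply le_of_eq
    field_simp
    norm_num
  · rw [ms_FW2 (fun d h => (a2 d (Or.inr h)).2.1) (by exact_mod_cast b1.trans hX)]
    refine a4.trans ((div_le_div_of_nonneg_left (by positivity) c5 (by linarith)).trans ?_)
    apply le_of_eq
    field_simp

theorem d2Err : ErrStmt := by
  intro κ w hκ hl
  obtain ⟨C, hC, hS⟩ := dSZ
  filter_upwards [eventually_ge_atTop 2,
    (tendsto_rpow_atTop (show (0 : ℝ) < 1 / 100 by norm_num)).eventually_ge_atTop C]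
    with x x2 xC lam e G hF hG hb
  have x1 : 1 ≤ x := by linarith
  have x0 : 0 < x := by linarith
  have s3 : ∀ s : ℝ, s ≤ 1 → x ^ s ≤ ⌊2 * x⌋₊ := fun s hs => by
    have k := Real.rpow_le_rpow_of_exponent_le x1 hs
    rw [Real.rpow_one] at k
    linarith [Nat.lt_floor_add_one (2 * x)]
  have p0 : 0 < x ^ (1 / 100 : ℝ) := by positivity
  have n0 : Nn (low x G) := nn_pm hG (rg_nn _ _)
  have n1 : Le (low x G) G := pm_le hG (rg_le _ _)
  have n2 : ∀ n, low x G n ≠ 0 → (n : ℝ) ≤ x ^ (19 / 20 : ℝ) := fun n hn => by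
    have k : rg 0 (x ^ (19 / 20 : ℝ)) n ≠ 0 := right_ne_zero_of_mul hn
    by_contra h
    exact k (if_neg fun h' => h h'.2)
  have n3 : ∀ n, low x G n ≤ x ^ (1 / 100 : ℝ) := fun n => by
    by_cases h : low x G n = 0
    · rw [h]
      exact p0.le
    · refine (n1 n).trans (hb n (((n2 n h).trans (s3 _ (by norm_num))).trans ?_))
      exact Nat.floor_le (by linarith)
  have e2 : ∀ d, e d ≠ 0 → (d : ℝ) ≤ x ^ (1 / 100 : ℝ) := fun d h =>
    (hF.s2 d h).trans (Real.rpow_le_rpow_of_exponent_le x1 hl)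
  have s2 : (∏ _i : Unit, x ^ (19 / 20 : ℝ)) * x ^ (1 / 100 : ℝ) ≤ x ^ (96 / 100 : ℝ) := by
    rw [Fintype.prod_unique, ← Real.rpow_add x0]
    exact Real.rpow_le_rpow_of_exponent_le x1 (by norm_num)
  obtain ⟨m1, m2⟩ := long_T1R (ι := Unit) (g := fun _ => (x ^ (1 / 100 : ℝ))⁻¹ • low x G)
    (A := fun _ => x ^ (19 / 20 : ℝ)) (gap := e) (X := ⌊2 * x⌋₊)
    (fun _ => Real.one_le_rpow x1 (by norm_num)) (Real.one_le_rpow x1 (by norm_num))
    (fun _ n => mul_nonneg (by positivity) (n0 n))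
    (fun _ n => by
      rw [AF_smul, abs_of_nonneg (mul_nonneg (by positivity) (n0 n)), inv_mul_le_iff₀ p0, mul_one]
      exact n3 n)
    (fun _ n h => n2 n (right_ne_zero_of_mul h)) hF.b2 e2 (s2.trans (s3 _ (by norm_num)))
    (hF.m2 _ (s3 _ (by linarith)))
  replace m2 := m2.trans s2
  simp only [Fintype.prod_unique] at m1 m2
  obtain ⟨c, c0, c2, hc⟩ := hS x (x ^ (-(1 / 1000) : ℝ)) x1 (by positivity)
    (Real.rpow_le_one_of_one_le_of_nonpos x1 (by norm_num))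
  have d3 := (abs_le.1 (hc ((x ^ (1 / 100 : ℝ))⁻¹ • low x G * e))).2
  have L0 : 0 < Real.log x := Real.log_pos (by linarith)
  have m3 : ms ⌊2 * x⌋₊ ((x ^ (1 / 100 : ℝ))⁻¹ • low x G) ≤
      (x ^ (1 / 100 : ℝ))⁻¹ * ms ⌊2 * x⌋₊ G := by
    unfold ms
    rw [mul_sum]
    refine sum_le_sum fun m _ => ?_
    rw [AF_smul, mul_div_assoc]
    exact mul_le_mul_of_nonneg_left (div_le_div_of_nonneg_right (n1 m) (Nat.cast_nonneg _))
      (by positivity)
  have m4 := ms_nn_One ⌊2 * x⌋₊ hG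
  have d4 : c * x * ms ⌊2 * x⌋₊ ((x ^ (1 / 100 : ℝ))⁻¹ • low x G * e) ≤
      2 * x * ((x ^ (1 / 100 : ℝ))⁻¹ * ms ⌊2 * x⌋₊ G * (2 ^ 26 / 4 ^ w / (κ * Real.log x))) :=
    (mul_le_mul_of_nonneg_left (m1.trans (mul_le_mul_of_nonneg_right m3 (by positivity)))
      (by positivity)).trans (by gcongr)
  have d5 : C / x ^ (-(1 / 1000) : ℝ) *
      ∑ m ∈ Icc 1 ⌊2 * x⌋₊, |((x ^ (1 / 100 : ℝ))⁻¹ • low x G * e) m| ≤
      (x ^ (1 / 100 : ℝ))⁻¹ * x ^ (99 / 100 : ℝ) := by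
    refine (mul_le_mul_of_nonneg_left m2 (by positivity)).trans ?_
    rw [Real.rpow_neg x0.le, div_inv_eq_mul, mul_assoc, ← Real.rpow_add x0, ← Real.rpow_neg x0.le,
      ← Real.rpow_add x0]
    refine (mul_le_mul_of_nonneg_right xC (by positivity)).trans ?_
    rw [← Real.rpow_add x0]
    exact Real.rpow_le_rpow_of_exponent_le x1 (by norm_num)
  rw [smul_mul_assoc, smul_mul_assoc, SS_smul, mul_assoc (low x G), ← smul_mul_assoc] at d3
  have d6 : (x ^ (1 / 100 : ℝ))⁻¹ * SB x (low x G * (e * zt)) ≤ (x ^ (1 / 100 : ℝ))⁻¹ *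
      (2 ^ 27 / 4 ^ w / κ * ms ⌊2 * x⌋₊ G * (x / Real.log x) + x ^ (99 / 100 : ℝ)) := by
    have e1 : (x ^ (1 / 100 : ℝ))⁻¹ * (2 ^ 27 / 4 ^ w / κ * ms ⌊2 * x⌋₊ G * (x / Real.log x)) =
        2 * x * ((x ^ (1 / 100 : ℝ))⁻¹ * ms ⌊2 * x⌋₊ G * (2 ^ 26 / 4 ^ w / (κ * Real.log x))) := by
      field_simp
    rw [mul_add, e1]
    unfold SB
    linarith
  exact le_of_mul_le_mul_left d6 (by positivity)

end Pool.Agent.MP_c853c5_nt.D2
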