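import Pool.Agent.MP_c853c5_nt.D2.Defs

set_option autoImplicit false

open Finset Filter

namespace Pool.Agent.MP_c853c5_nt.D2

open Pool.Agent.MP_c853c5_nt.S Pool.Agent.MP_c853c5_nt.D

lemma small_Fin2 {C ε : ℝ} (hC : 0 < C) (hε : 0 < ε) :
    ∃ w : ℕ, 13 ≤ w ∧ C * (4 * (w : ℝ) + 6) ^ 5 / 4 ^ w ≤ ε := by
  have h := tendsto_pow_const_div_const_pow_of_one_lt 5 (show (1 : ℝ) < 4 by norm_num)
  have h2 := (h.eventually (gt_mem_nhds (show (0 : ℝ) < ε / (5 ^ 5 * C) by positivity))).and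
    (eventually_ge_atTop 13)
  obtain ⟨w, h3, h4⟩ := h2.exists
  refine ⟨w, h4, ?_⟩
  have h5 : (13 : ℝ) ≤ w := by exact_mod_cast h4
  have h6 : (4 * (w : ℝ) + 6) ^ 5 ≤ 5 ^ 5 * (w : ℝ) ^ 5 := by
    rw [← mul_pow]
    exact pow_le_pow_left₀ (by linarith) (by linarith) 5
  have h7 : (0 : ℝ) < 4 ^ w := by positivity
  rw [div_lt_div_iff₀ h7 (by positivity)] at h3
  rw [div_le_iff₀ h7]
  nlinarith [mul_le_mul_of_nonneg_left h6 hC.le]

lemma alt_Fin2 {ι : Type} [Fintype ι] {τ η η₀ η' : ℝ} {K : ℕ} {pr : ι → Prop} {c : ι → ℝ}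
    {b1 b2 : ℝ} (h : Alt4 τ η₀ η' K pr c b1 b2) (hη : η ≤ η₀) : Alt4 τ η η' K pr c b1 b2 :=
  h.imp id (Or.imp (fun h => e1_mono_Fin h hη) (Or.imp (fun h => e1_mono_Fin h hη)
    fun h => ⟨h.1, h.2.1, fun r v h0 h1 h2 h3 => (h.2.2 r v h0 h1 h2 h3).trans (by linarith)⟩))

lemma div_Fin2 {r : ℕ} (B : Fin r → Blk) (κ z : ℝ) (j : ℕ) {δ : ℝ} (hδ : 0 < δ) :
    ∀ᶠ x : ℝ in atTop, ∀ n : ℕ, (n : ℝ) ≤ 2 * x →
      |((∏ i, bf x (B i)) * PP x κ z ^ j * RR x κ) n| ≤ x ^ δ := by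
  filter_upwards [div_all (Option (Fin r ⊕ Fin j)) hδ] with x hx n hn
  have h := hx (fun o => o.elim (RR x κ) (Sum.elim (fun i => bf x (B i)) fun _ => PP x κ z))
    (by
      rintro (_ | i | i) d
      · exact abs_bf_le _ _ _
      · exact abs_bf_le _ _ _
      · exact (abs_of_nonneg (PP_nn_One x κ z d).1).trans_le (PP_nn_One x κ z d).2) n hn
  rw [Fintype.prod_option, Fintype.prod_sum_type] at h
  simp only [Option.elim, Sum.elim_inl, Sum.elim_inr, prod_const, card_univ,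
    Fintype.card_fin] at h
  rwa [mul_comm (RR x κ)] at h

theorem d2Fin (hFW : FWStmt) (hOm : OmStmt) (hTm : TmStmt) (hTa : TaStmt) (hTb : TbStmt)
    (hBox : BoxStmt) (hNom : NomStmt2) (hOne : OneStmt2) (hErr : ErrStmt) (hES : ESumStmt)
    (hExp : ExpStmt) (hIn : InStmt) (hCut : CutStmt) (hBnd : BndStmt) (hLam : LamStmt)
    (hLay : LayStmt) (hRow : RowStmt2) (hSum : SumStmt2) (h1 : E1D) (h2 : E2D) (h12 : E12D) :
    LeafS2 := by
  intro τ t ht hτ hτ2 r B z1 z2 lo hi hB hz1 hz2 hlo hhi hD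
  rcases lt_or_ge hi lo with hlh | hlh
  · refine (ev_zero t).congr ?_
    filter_upwards [eventually_ge_atTop 1] with x hx n _
    have e : bf x ⟨lo, hi, z2, none⟩ = 0 := by
      ext m
      refine bf_of_not fun h => ?_
      have := Real.rpow_le_rpow_of_exponent_le hx hlh.le
      linarith [h.2.1, h.2.2.1]
    rw [e, mul_zero, zero_mul]
  obtain ⟨η₀, hη₀, hD⟩ := hD
  obtain ⟨⟨M, hM1, hM⟩, hP⟩ := dMs
  set η := min η₀ (1 / 1000) with hηd
  have hη : 0 < η := lt_min hη₀ (by norm_num)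
  have hl : 0 < lev τ t η := lt_min (by positivity) (by linarith)
  set c := min (min (lev τ t η) (1 / 100)) (min z1 z2) with hc
  have c0 : 0 < c := lt_min (lt_min hl (by norm_num)) (lt_min hz1 hz2)
  refine ev_iff.2 fun ε hε => ?_
  obtain ⟨w, hw, hs⟩ := small_Fin2 (C := 2 ^ 36 * M ^ r * 36 / c ^ 5) (by positivity)
    (half_pos hε)
  have w0 : (1 : ℝ) ≤ 4 * (w : ℝ) + 6 := by
    have : (0 : ℝ) ≤ w := Nat.cast_nonneg w
    linarith
  set κ := c / (4 * (w : ℝ) + 6) with hκ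
  have κ0 : 0 < κ := by positivity
  have κc : κ ≤ c := div_le_self c0.le w0
  have κz1 : κ ≤ z1 := κc.trans ((min_le_right _ _).trans (min_le_left _ _))
  have κz2 : κ ≤ z2 := κc.trans ((min_le_right _ _).trans (min_le_right _ _))
  have c1 : c ≤ 1 / 100 := (min_le_left _ _).trans (min_le_right _ _)
  have κe : κ * (4 * w + 6) = c := by rw [hκ, div_mul_cancel₀ _ (by linarith)]
  have κl : κ * (4 * w + 6) ≤ lev τ t η := κe.trans_le ((min_le_left _ _).trans (min_le_left _ _))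
  obtain ⟨η', hη', K, hK⟩ := hD κ κ0
  have hA : Alt2 τ η η' κ z1 z2 lo hi K B := fun j1 j2 a q1 q2 b1 b2 a1 a2 a3 a4 a5 a6 a7 a8 =>
    alt_Fin2 (hK j1 j2 a q1 q2 b1 b2 a1 a2 a3 a4 a5 a6 a7 a8) (min_le_left _ _)
  have hO := hOne hBox hNom hTa hTb h1 h2 h12 τ t η η' κ z1 z2 lo hi K w r B ht hτ hτ2 hη
    (min_le_right _ _) hη' κ0 κl hA
  have m0 : 0 ≤ Real.log (6 / κ) := Real.log_nonneg (by
    rw [le_div_iff₀ κ0]
    linarith)
  have t0 : 0 < t := by linarith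
  have t1 : t < 1 / 2 := by linarith
  have hR := fun j1 j2 => hRow hCut hBnd hLay hLam hFW t κ z1 z2 lo hi _ r j1 j2 B t0 t1 κ0
    (fun i => by linarith [hB i]) hlo hlh hhi
    (hIn hExp hES hErr hTm hOm hFW t κ z1 z2 lo hi M (Real.log (6 / κ)) w r j1 j2 B κ0 hw
      (κe.trans_le c1) (hO j1 j2) (hM.mono fun x hx i => hx _ (hB i))
      (hP κ z1 κ0 (by linarith)) (hP κ z2 κ0 (by linarith)))
  have hS := fun j1 => hSum t κ z2 lo hi
    (2 ^ 36 / 4 ^ w / κ ^ 3 * M ^ r * Real.log (6 / κ) ^ j1) (Real.log (6 / κ))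
    (fun x => (∏ i, bf x (B i)) * PP x κ z1 ^ j1 * RR x κ) t0 t1 κ0 κz2 (by positivity) m0
    (fun δ hδ => div_Fin2 B κ z1 j1 hδ) (hR j1)
  have e : ∀ x : ℝ, ∏ i, bf x ((Fin.snoc B ⟨lo, hi, z2, none⟩ : Fin (r + 1) → Blk) i) =
      (∏ i, bf x (B i)) * bf x ⟨lo, hi, z2, none⟩ := fun x => by
    rw [Fin.prod_univ_castSucc]
    simp only [Fin.snoc_castSucc, Fin.snoc_last]
  have hT := dSum dId dBad dSZ t κ z1 (2 ^ 36 / 4 ^ w / κ ^ 3 * M ^ r * (6 / κ))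
    (Real.log (6 / κ)) (r + 1) (Fin.snoc B ⟨lo, hi, z2, none⟩) t0 t1 κ0 κz1 (by positivity) m0
    (fun j ε' hε' => (hS j ε' hε').mono fun x hx => by
      rw [Real.exp_log (by positivity)] at hx
      rw [e]
      convert hx using 3
      · unfold RR
        ring
      · ring) (ε / 2) (half_pos hε)
  filter_upwards [hT, eventually_gt_atTop 1] with x hx x1
  rw [e, Real.exp_log (by positivity)] at hx
  refine hx.trans (mul_le_mul_of_nonneg_right ?_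
    (div_nonneg (by linarith) (Real.log_pos x1).le))
  have e2 : 2 ^ 36 / 4 ^ w / κ ^ 3 * M ^ r * (6 / κ) * (6 / κ) =
      2 ^ 36 * M ^ r * 36 / c ^ 5 * (4 * (w : ℝ) + 6) ^ 5 / 4 ^ w := by
    rw [hκ]
    field_simp
    ring
  rw [e2]
  linarith

end Pool.Agent.MP_c853c5_nt.D2
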