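import Pool.Agent.MP_c853c5_nt.D2.Defs

/-!
Summation over the boxes inside the range.
-/

set_option autoImplicit false

open Finset Filter

namespace Pool.Agent.MP_c853c5_nt.D2

open Pool.Agent.MP_c853c5_nt.S Pool.Agent.MP_c853c5_nt.D

lemma sum_In2 {α : Type} [Fintype α] (n : ℕ) (T E : α → ℕ → ℕ → ℝ) (a : ℝ)
    (h : ∀ f k1 k2, |T f k1 k2| ≤ a + 2 * E f k1 k2 + 2 * E f k2 k1) :
    |∑ f, ∑ k1 ∈ range n, ∑ k2 ∈ range n, T f k1 k2| ≤ Fintype.card α * (n * (n * a)) +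
      4 * ∑ f, ∑ k1 ∈ range n, ∑ k2 ∈ range n, E f k1 k2 := by
  refine (abs_sum_le_sum_abs _ _).trans ((sum_le_sum fun f _ => (abs_sum_le_sum_abs _ _).trans
    (sum_le_sum fun k1 _ => (abs_sum_le_sum_abs _ _).trans
      (sum_le_sum fun k2 _ => h f k1 k2))).trans_eq ?_)
  have e : ∑ f, ∑ k1 ∈ range n, ∑ k2 ∈ range n, E f k2 k1 =
      ∑ f, ∑ k1 ∈ range n, ∑ k2 ∈ range n, E f k1 k2 := sum_congr rfl fun f _ => sum_comm
  simp only [sum_add_distrib, ← mul_sum, sum_const, card_range, card_univ, nsmul_eq_mul, e]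
  ring

theorem d2In : InStmt := by
  intro hX hS hE hT hO hF t κ z1 z2 lo hi M m w r j1 j2 B hκ hw hl h1 hM hm1 hm2 ε hε
  filter_upwards [h1 (r + (j1 + j2) + 4), hM, hm1, hm2, hF κ w hκ hw,
    hS hE hT hO (Fin r ⊕ (Fin j1 ⊕ Fin j2)) κ w hκ hl, eventually_ge_atTop (3 : ℝ),
    Real.tendsto_log_atTop.eventually_ge_atTop 2,
    Real.tendsto_log_atTop.eventually_ge_atTop (3 ^ (r + (j1 + j2)) * 162 / ε),
    small_Sum (1 / 100) (ε / 8) (by norm_num) (by positivity)]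
    with x a1 a2 a3 a4 ⟨lam, e, hW⟩ a5 hx hl1 hl2 a6
  have hc : ∀ i n, 0 ≤ cf x κ z1 z2 B j1 j2 i n ∧ cf x κ z1 z2 B j1 j2 i n ≤ 1 := by
    rintro (i | i | i) n
    exacts [bf_nn_One _ _ _, PP_nn_One _ _ _ _, PP_nn_One _ _ _ _]
  have l0 : 0 < Real.log x := by linarith
  have q0 : 0 ≤ x / Real.log x := by positivity
  have b1 := a5 lam e _ hW hc
  have b2 : ∏ i, ms ⌊2 * x⌋₊ (cf x κ z1 z2 B j1 j2 i) ≤ M ^ r * m ^ j1 * m ^ j2 := by
    have c1 := fun i => ms_nonneg_Row ⌊2 * x⌋₊ (bf_nonneg_Row x (B i))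
    have c2 := fun z => ms_nonneg_Row ⌊2 * x⌋₊ (pp_nonneg_Row x κ z)
    have c3 : ∏ i, ms ⌊2 * x⌋₊ (bf x (B i)) ≤ M ^ r :=
      (prod_le_prod (fun i _ => c1 i) fun i _ => a2 i).trans (by simp)
    have c4 := prod_nonneg (s := univ) fun i _ => c1 i
    simp only [cf, Fintype.prod_sum_type, Sum.elim_inl, Sum.elim_inr, prod_const, card_univ,
      Fintype.card_fin]
    rw [mul_assoc]
    exact mul_le_mul c3 (mul_le_mul (pow_le_pow_left₀ (c2 _) a3 j1) (pow_le_pow_left₀ (c2 _) a4 j2)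
      (pow_nonneg (c2 _) _) (pow_nonneg ((c2 _).trans a3) _))
      (mul_nonneg (pow_nonneg (c2 _) _) (pow_nonneg (c2 _) _)) (c4.trans c3)
  have b3 : (LL x : ℝ) ≤ 3 * Real.log x := len_Row (by linarith) hl1
  have b4 : (nn x : ℝ) ≤ 9 * Real.log x := by
    have := Nat.ceil_lt_add_one (show 0 ≤ 8 * Real.log x by linarith)
    unfold nn
    linarith
  have b5 : (LL x : ℝ) ^ (r + (j1 + j2)) * (nn x * (nn x * (x / Real.log x ^ (r + (j1 + j2) + 4))))
      ≤ ε / 2 * (x / Real.log x) := by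
    rw [div_le_iff₀ hε] at hl2
    calc _ ≤ (3 * Real.log x) ^ (r + (j1 + j2)) * (9 * Real.log x * (9 * Real.log x *
          (x / Real.log x ^ (r + (j1 + j2) + 4)))) := by gcongr
      _ = 3 ^ (r + (j1 + j2)) * 162 * (x / Real.log x ^ 2 / 2) := by
        rw [mul_pow]
        field_simp
        ring
      _ ≤ Real.log x * ε * (x / Real.log x ^ 2 / 2) := by gcongr
      _ = _ := by field_simp
  rw [hX t x κ z1 z2 _ _ r j1 j2 B hx]
  refine (sum_In2 _ _ (fun f => er x κ lam e (∏ i, dy (2 ^ (f i : ℕ)) (cf x κ z1 z2 B j1 j2 i)))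
    (x / Real.log x ^ (r + (j1 + j2) + 4)) fun f k1 k2 => ?_).trans ?_
  · split_ifs with h
    · exact a1 lam e hW (fun i => 2 ^ (f i : ℕ)) k1 k2 (fun i => Nat.one_le_two_pow) h
    · have hG : Nn (∏ i, dy (2 ^ (f i : ℕ)) (cf x κ z1 z2 B j1 j2 i)) :=
        Nn.prod fun i _ n => (dy_nn_One _ (hc i) n).1
      have c1 := hW.er_nn (by linarith) hG k1 k2
      have c2 := hW.er_nn (by linarith) hG k2 k1
      rw [abs_zero]
      positivity
  · rw [Fintype.card_fun, Fintype.card_fin, Fintype.card_sum, Fintype.card_sum, Fintype.card_fin,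
      Fintype.card_fin, Fintype.card_fin, Nat.cast_pow]
    have c1 := mul_le_mul_of_nonneg_right (mul_le_mul_of_nonneg_left b2
      (show 0 ≤ (2 : ℝ) ^ 34 / 4 ^ w / κ ^ 3 by positivity)) q0
    rw [show (1 : ℝ) - 1 / 100 = 99 / 100 by norm_num] at a6
    have c2 : (ε + 2 ^ 36 / 4 ^ w / κ ^ 3 * M ^ r * m ^ j1 * m ^ j2) * (x / Real.log x) =
        ε * (x / Real.log x) +
          4 * (2 ^ 34 / 4 ^ w / κ ^ 3 * (M ^ r * m ^ j1 * m ^ j2) * (x / Real.log x)) := by ring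
    rw [c2]
    linarith

end Pool.Agent.MP_c853c5_nt.D2
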