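import Pool.Agent.MP_c853c5_nt.D2.Defs

set_option autoImplicit false

open Finset Filter

namespace Pool.Agent.MP_c853c5_nt.D2

open Pool.Agent.MP_c853c5_nt.S Pool.Agent.MP_c853c5_nt.D

lemma harm_Lam2 {y : ℝ} (hy : 1 ≤ y) :
    |(harmonic ⌊y⌋₊ : ℝ) - Real.log y - Real.eulerMascheroniConstant| ≤ 2 / y := by
  have hn : 1 ≤ ⌊y⌋₊ := Nat.le_floor (by exact_mod_cast hy)
  have h0 : (1 : ℝ) ≤ ⌊y⌋₊ := by exact_mod_cast hn
  have h1 := Real.eulerMascheroniSeq_lt_eulerMascheroniConstant ⌊y⌋₊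
  have h2 := Real.eulerMascheroniConstant_lt_eulerMascheroniSeq' ⌊y⌋₊
  rw [Real.eulerMascheroniSeq] at h1
  rw [Real.eulerMascheroniSeq', if_neg (by omega)] at h2
  have h3 : (⌊y⌋₊ : ℝ) ≤ y := Nat.floor_le (by linarith)
  have h4 : y < ⌊y⌋₊ + 1 := Nat.lt_floor_add_one y
  have h5 := Real.log_le_log (by linarith) h3
  have h6 := Real.log_le_log (by linarith) h4.le
  have h7 : Real.log ((⌊y⌋₊ : ℝ) + 1) - Real.log ⌊y⌋₊ ≤ 2 / y := by
    rw [← Real.log_div (by linarith) (by linarith)]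
    refine (Real.log_le_sub_one_of_pos (by positivity)).trans ?_
    rw [div_sub_one (by linarith), div_le_div_iff₀ (by linarith) (by linarith)]
    linarith
  rw [abs_le]
  constructor <;> linarith

lemma ms_zt_Lam2 (lam : AF) (N : ℕ) :
    ms N (lam * zt) = ∑ d ∈ Icc 1 N, lam d / d * (harmonic (N / d) : ℝ) := by
  have h := ArithmeticFunction.sum_Ioc_mul_eq_sum_sum (pm lam fun n => (n : ℝ)⁻¹)
    (pm zt fun n => (n : ℝ)⁻¹) N
  have e : ∀ M : ℕ, Ioc 0 M = Icc 1 M := fun M => rfl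
  simp only [e] at h
  unfold ms
  convert h using 2 with n hn d hd
  · rw [ArithmeticFunction.mul_apply, ArithmeticFunction.mul_apply, sum_div]
    refine sum_congr rfl fun p hp => ?_
    rw [← (Nat.mem_divisorsAntidiagonal.1 hp).1, pm_apply, pm_apply]
    push_cast
    rw [div_eq_mul_inv, mul_inv]
    ring
  · rw [pm_apply, div_eq_mul_inv, harmonic_eq_sum_Icc]
    push_cast
    congr 1
    refine sum_congr rfl fun m hm => ?_
    have : m ≠ 0 := by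
      have := (mem_Icc.1 hm).1
      omega
    simp [pm_apply, zt, this]

lemma ms_cut_Lam2 {lam : AF} {N : ℕ} (h : ∀ d, lam d ≠ 0 → d ≤ N) {y : ℝ} (hy : (N : ℝ) ≤ y) :
    ms ⌊y⌋₊ (lam * zt) = ∑ d ∈ Icc 1 N, lam d / d * (harmonic ⌊y / d⌋₊ : ℝ) := by
  rw [ms_zt_Lam2]
  simp only [Nat.floor_div_natCast]
  refine (sum_subset (Icc_subset_Icc_right (Nat.le_floor hy)) fun d hd hn => ?_).symm
  have : lam d = 0 := by
    by_contra c
    exact hn (mem_Icc.2 ⟨(mem_Icc.1 hd).1, h d c⟩)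
  rw [this, zero_div, zero_mul]

lemma diff_Lam2 {lam : AF} {N : ℕ} (h1 : ∀ d, |lam d| ≤ 1) (h : ∀ d, lam d ≠ 0 → d ≤ N)
    {A B : ℝ} (h0 : 0 < A) (hA : (N : ℝ) ≤ A) (hB : A ≤ B) :
    ms ⌊B⌋₊ (lam * zt) - ms ⌊A⌋₊ (lam * zt) ≤ Real.log (B / A) * ms N lam + 4 * N / A := by
  rw [ms_cut_Lam2 h hA, ms_cut_Lam2 h (hA.trans hB), ← sum_sub_distrib, ms, mul_sum]
  have e : 4 * (N : ℝ) / A = ∑ _d ∈ Icc 1 N, 4 / A := by
    rw [sum_const, Nat.card_Icc, nsmul_eq_mul, Nat.add_sub_cancel]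
    ring
  rw [e, ← sum_add_distrib]
  refine sum_le_sum fun d hd => ?_
  obtain ⟨d1, d2⟩ := mem_Icc.1 hd
  have d3 : (0 : ℝ) < d := by exact_mod_cast d1
  have d4 : (d : ℝ) ≤ A := le_trans (by exact_mod_cast d2) hA
  have k1 := harm_Lam2 ((one_le_div d3).2 d4)
  have k2 := harm_Lam2 ((one_le_div d3).2 (d4.trans hB))
  have hB0 : 0 < B := h0.trans_le hB
  rw [Real.log_div h0.ne' d3.ne', div_div_eq_mul_div] at k1
  rw [Real.log_div hB0.ne' d3.ne', div_div_eq_mul_div] at k2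
  have k3 : 2 * (d : ℝ) / B ≤ 2 * d / A := div_le_div_of_nonneg_left (by positivity) h0 hB
  have k4 : |(harmonic ⌊B / d⌋₊ : ℝ) - harmonic ⌊A / d⌋₊ - Real.log (B / A)| ≤ 4 * d / A := by
    rw [Real.log_div hB0.ne' h0.ne']
    rw [abs_le] at k1 k2 ⊢
    have : 4 * (d : ℝ) / A = 2 * d / A + 2 * d / A := by ring
    constructor <;> linarith [k1.1, k1.2, k2.1, k2.2]
  have k5 : |lam d / d * ((harmonic ⌊B / d⌋₊ : ℝ) - harmonic ⌊A / d⌋₊ - Real.log (B / A))| ≤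
      4 / A := by
    rw [abs_mul, abs_div, abs_of_pos d3]
    calc _ ≤ 1 / (d : ℝ) * (4 * d / A) :=
          mul_le_mul (div_le_div_of_nonneg_right (h1 d) d3.le) k4 (abs_nonneg _) (by positivity)
      _ = 4 / A := by field_simp
  linarith [le_abs_self
    (lam d / d * ((harmonic ⌊B / d⌋₊ : ℝ) - harmonic ⌊A / d⌋₊ - Real.log (B / A)))]

lemma layer_Lam2 {R F : AF} (hR : Nn R) (h : Le R F) {A B : ℝ} (h0 : 0 ≤ A) (hB : A ≤ B)
    (X : ℕ) : ms X (pm R (rg A B)) ≤ ms ⌊B⌋₊ F - ms ⌊A⌋₊ F := by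
  have e : ∀ M : ℕ, Icc 1 M = Ioc 0 M := fun M => rfl
  have h1 := sum_Ioc_consecutive (fun m : ℕ => F m / m) (Nat.zero_le ⌊A⌋₊) (Nat.floor_le_floor hB)
  unfold ms
  rw [e ⌊B⌋₊, e ⌊A⌋₊, ← h1, add_sub_cancel_left]
  calc ∑ m ∈ Icc 1 X, pm R (rg A B) m / m
      ≤ ∑ m ∈ Icc 1 X, if m ∈ Ioc ⌊A⌋₊ ⌊B⌋₊ then F m / m else 0 := by
        refine sum_le_sum fun m _ => ?_
        rw [pm_apply, rg]
        by_cases c : A < m ∧ (m : ℝ) ≤ B
        · rw [if_pos c, if_pos (mem_Ioc.2 ⟨(Nat.floor_lt h0).2 c.1, Nat.le_floor c.2⟩), mul_one]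
          exact div_le_div_of_nonneg_right (h m) (Nat.cast_nonneg m)
        · rw [if_neg c, mul_zero, zero_div]
          split_ifs
          · exact div_nonneg ((hR m).trans (h m)) (Nat.cast_nonneg m)
          · exact le_rfl
    _ ≤ _ := by
        rw [← sum_filter]
        exact sum_le_sum_of_subset_of_nonneg (fun m hm => (mem_filter.1 hm).2)
          fun m _ _ => div_nonneg ((hR m).trans (h m)) (Nat.cast_nonneg m)

theorem d2Lam : LamStmt := by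
  intro hF κ c C ε hκ hc hC hε
  obtain ⟨k, hk⟩ : ∃ k : ℝ, k = min κ (1 / 20000) := ⟨_, rfl⟩
  have k0 : 0 < k := hk ▸ lt_min hκ (by norm_num)
  have k1 : k ≤ κ := hk ▸ min_le_left _ _
  have k2 : k ≤ 1 / 20000 := hk ▸ min_le_right _ _
  have hL : 0 ≤ Real.log (C ^ 2) := Real.log_nonneg (one_le_pow₀ hC)
  have t1 : ∀ᶠ x : ℝ in atTop, Real.log (C ^ 2) * 8 / (k * ε) ≤ Real.log x :=
    Real.tendsto_log_atTop.eventually_ge_atTop _
  have t2 : ∀ᶠ x : ℝ in atTop, max (16 * C / ε) (2 * C) ≤ x ^ (1 / 200 : ℝ) :=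
    (tendsto_rpow_atTop (by norm_num)).eventually_ge_atTop _
  filter_upwards [hF k 13 k0 le_rfl, t1, t2, eventually_gt_atTop 1] with x ⟨lam, e, H⟩ h1 h2 hx
  have hx0 : 0 < x := by linarith
  have hC0 : 0 < C := by linarith
  obtain ⟨u, hu⟩ : ∃ u : ℝ, u = x ^ (1 / 200 : ℝ) := ⟨_, rfl⟩
  rw [← hu] at h2
  have u1 : 1 ≤ u := hu ▸ Real.one_le_rpow hx.le (by norm_num)
  have u2 : u * u ≤ x ^ c := by
    rw [hu, ← Real.rpow_add hx0]
    exact Real.rpow_le_rpow_of_exponent_le hx.le (by linarith)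
  have hxc : 0 < x ^ c := Real.rpow_pos_of_pos hx0 c
  obtain ⟨N, hN⟩ : ∃ N : ℕ, N = ⌈x ^ (k * (4 * (13 : ℕ) + 6))⌉₊ := ⟨_, rfl⟩
  have n1 : x ^ (k * (4 * (13 : ℕ) + 6)) ≤ N := hN ▸ Nat.le_ceil _
  have n2 : (N : ℝ) ≤ 2 * u := by
    have a1 : x ^ (k * (4 * (13 : ℕ) + 6)) ≤ u := by
      rw [hu]
      refine Real.rpow_le_rpow_of_exponent_le hx.le ?_
      push_cast
      linarith
    have a2 := Nat.ceil_lt_add_one (Real.rpow_pos_of_pos hx0 (k * (4 * (13 : ℕ) + 6))).le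
    rw [← hN] at a2
    linarith
  have hA0 : 0 < x ^ c / C := div_pos hxc hC0
  have n3 : (N : ℝ) ≤ x ^ c / C := by
    rw [le_div_iff₀ hC0]
    have := (le_max_right _ _).trans h2
    nlinarith
  have hAB : x ^ c / C ≤ C * x ^ c :=
    (div_le_self hxc.le hC).trans (le_mul_of_one_le_left hxc.le hC)
  have hR : Le (RR x κ) (lam * zt) := fun n =>
    (le_bf (B := fr κ) (C := fr k) (fun m hm =>
      ⟨hm.1, hm.2.1, hm.2.2.1, hm.2.2.2.1.anti hx.le k1, fun _ h => by simp [fr] at h⟩) n).trans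
      (H.maj n)
  refine (layer_Lam2 (nn_RR x κ) hR hA0.le hAB _).trans
    ((diff_Lam2 H.b1 (fun d hd => ?_) hA0 n3 hAB).trans ?_)
  · exact_mod_cast (H.s1 d hd).trans n1
  · have e1 : C * x ^ c / (x ^ c / C) = C ^ 2 := by field_simp
    have hl : 0 < Real.log x := Real.log_pos hx
    have b1 : Real.log (C ^ 2) * ms N lam ≤ ε / 2 := by
      refine (mul_le_mul_of_nonneg_left (H.m1 N n1) hL).trans ?_
      rw [div_le_iff₀ (by positivity)] at h1
      rw [← mul_div_assoc, div_le_iff₀ (by positivity)]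
      linarith
    have b2 : 4 * (N : ℝ) / (x ^ c / C) ≤ ε / 2 := by
      have a1 := (le_max_left _ _).trans h2
      rw [div_le_iff₀ hε] at a1
      rw [div_div_eq_mul_div, div_le_iff₀ hxc]
      have a2 : 4 * (N : ℝ) * C ≤ 4 * (2 * u) * C :=
        mul_le_mul_of_nonneg_right (by linarith) hC0.le
      have a3 : ε / 2 * (u * u) ≤ ε / 2 * x ^ c := mul_le_mul_of_nonneg_left u2 (by linarith)
      nlinarith
    rw [e1]
    linarith

end Pool.Agent.MP_c853c5_nt.D2
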