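import Pool.Agent.MP_c853c5_nt.D2.Defs

/-!
A layer is negligible for every width.
-/

set_option autoImplicit false

open Finset Filter

namespace Pool.Agent.MP_c853c5_nt.D2

open Pool.Agent.MP_c853c5_nt.S Pool.Agent.MP_c853c5_nt.D

lemma half_Lay2 (hL : LamStmt) (hF : FWStmt) {κ c C s ε : ℝ} (hκ : 0 < κ) (hc : 1 / 100 ≤ c)
    (hc2 : c ≤ 1 / 2) (hC : 1 ≤ C) (hs : 0 < s) (hs2 : s < 1 / 2) (hε : 0 < ε) :
    ∀ᶠ x : ℝ in atTop, SS x (x ^ (-s)) (RR x κ * pm (RR x κ) (rg (x ^ c / C) (C * x ^ c))) ≤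
      ε * (x / Real.log x) := by
  obtain ⟨C0, h0, hZ⟩ := dSZ
  obtain ⟨d, hd⟩ : ∃ d, d = 1 / 2 - s := ⟨_, rfl⟩
  have d0 : 0 < d := by linarith
  obtain ⟨k, k0, k1, k2⟩ : ∃ k, 0 < k ∧ k ≤ κ ∧ k ≤ d / 200 :=
    ⟨min κ (d / 200), by positivity, min_le_left _ _, min_le_right _ _⟩
  filter_upwards [hF k 13 k0 le_rfl, hL hF κ c C (ε * k / 16) hκ hc hC (by positivity),
    small_Sum (d / 4) (ε / 2) (by positivity) (by positivity), eventually_gt_atTop (1 : ℝ),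
    E.ev_const_le C (γ := d / 4) (by positivity),
    E.ev_const_le (C0 * C) (γ := d / 4) (by positivity)] with x ⟨lam, e, hW⟩ h1 h2 hx h3 h4
  have x0 : 0 < x := by linarith
  have l0 := Real.log_pos hx
  set Y := pm (RR x κ) (rg (x ^ c / C) (C * x ^ c)) with hY
  have n1 : Nn Y := nn_pm (nn_RR x κ) (rg_nn _ _)
  have n2 : ∀ n, |Y n| ≤ 1 := fun n =>
    (abs_of_nonneg (n1 n)).trans_le ((pm_le (nn_RR x κ) (rg_le _ _) n).trans (bf_le_one _ _ n))
  have n3 : ∀ n, Y n ≠ 0 → (n : ℝ) ≤ C * x ^ (1 / 2 : ℝ) := fun n hn => by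
    have h5 : rg (x ^ c / C) (C * x ^ c) n ≠ 0 := right_ne_zero_of_mul hn
    have h6 : (n : ℝ) ≤ C * x ^ c := by_contra fun h => h5 (if_neg fun h' => h h'.2)
    exact h6.trans (mul_le_mul_of_nonneg_left (Real.rpow_le_rpow_of_exponent_le hx.le hc2)
      (by linarith))
  have b1 : x ^ (1 / 2 : ℝ) * x ^ (k * (4 * (13 : ℕ) + 6)) ≤ x ^ (1 / 2 + d / 2) := by
    rw [← Real.rpow_add x0]
    refine Real.rpow_le_rpow_of_exponent_le hx.le ?_
    push_cast
    linarith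
  have b2 : C * x ^ (1 / 2 : ℝ) * x ^ (k * (4 * (13 : ℕ) + 6)) ≤ ⌊2 * x⌋₊ := by
    rw [mul_assoc]
    refine (mul_le_mul h3 b1 (by positivity) (by positivity)).trans ?_
    rw [← Real.rpow_add x0]
    refine (Real.rpow_le_self_of_one_le hx.le (by linarith)).trans ?_
    linarith [Nat.lt_floor_add_one (2 * x)]
  have b3 : 1 ≤ C * x ^ (1 / 2 : ℝ) :=
    one_le_mul_of_one_le_of_one_le hC (Real.one_le_rpow hx.le (by norm_num))
  have b4 : 1 ≤ x ^ (k * (4 * (13 : ℕ) + 6)) := Real.one_le_rpow hx.le (by positivity)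
  obtain ⟨m1, m2⟩ := long_T1R (ι := Unit) (g := fun _ => Y) (A := fun _ => C * x ^ (1 / 2 : ℝ))
    (fun _ => b3) b4 (fun _ => n1) (fun _ => n2) (fun _ => n3) hW.b1 hW.s1
    (by rwa [Fintype.prod_unique])
    (hW.m1 _ ((le_mul_of_one_le_left (by positivity) b3).trans b2))
  simp only [Fintype.prod_unique] at m1 m2
  obtain ⟨a, a0, a2, ha⟩ := hZ x (x ^ (-s)) hx.le (by positivity)
    (Real.rpow_le_one_of_one_le_of_nonpos hx.le (by linarith))
  have r1 : Le (RR x κ) (lam * zt) := Le.trans (g := RR x k)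
    (le_bf fun m h => ⟨h.1, h.2.1, h.2.2.1, h.2.2.2.1.anti hx.le k1, h.2.2.2.2⟩) hW.maj
  have r2 : SS x (x ^ (-s)) (RR x κ * Y) ≤ SS x (x ^ (-s)) (Y * lam * zt) := by
    rw [mul_assoc, mul_comm Y]
    exact SS_mono (by positivity) fun n _ => Le.mul_right n1 r1 n
  have r3 := (abs_le.1 (ha (Y * lam))).2
  have r4 : a * x * ms ⌊2 * x⌋₊ (Y * lam) ≤ ε / 2 * (x / Real.log x) := by
    have q1 := m1.trans (mul_le_mul_of_nonneg_right h1 (by positivity))
    refine (mul_le_mul_of_nonneg_left q1 (by positivity)).trans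
      ((mul_le_mul_of_nonneg_right (mul_le_mul_of_nonneg_right a2 x0.le) (by positivity)).trans
        (le_of_eq ?_))
    field_simp
    ring
  have r5 : C0 / x ^ (-s) * ∑ m ∈ Icc 1 ⌊2 * x⌋₊, |(Y * lam) m| ≤ x ^ (1 - d / 4) := by
    refine (mul_le_mul_of_nonneg_left m2 (by positivity)).trans ?_
    have q1 := mul_le_mul h4 (mul_le_mul_of_nonneg_left b1 (by positivity : 0 ≤ x ^ s))
      (by positivity) (by positivity)
    rw [← Real.rpow_add x0 s, ← Real.rpow_add x0 (d / 4),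
      show d / 4 + (s + (1 / 2 + d / 2)) = 1 - d / 4 by linarith] at q1
    rw [Real.rpow_neg x0.le, div_inv_eq_mul]
    exact le_trans (le_of_eq (by ring)) q1
  linarith

lemma swap_Lay2 {R : AF} (hR : Nn R) {u v u' v' : ℝ} {n : ℕ}
    (h : ∀ a b : ℕ, a * b = n → u < b → (b : ℝ) ≤ v → u' < a ∧ (a : ℝ) ≤ v') :
    (R * pm R (rg u v)) n ≤ (R * pm R (rg u' v')) n := by
  rw [mul_comm R (pm R (rg u' v')), ArithmeticFunction.mul_apply, ArithmeticFunction.mul_apply]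
  refine sum_le_sum fun p hp => ?_
  have h1 : rg u v p.2 ≤ rg u' v' p.1 := by
    by_cases k : u < p.2 ∧ (p.2 : ℝ) ≤ v
    · exact (rg_le _ _ _).trans_eq
        (if_pos (h _ _ (Nat.mem_divisorsAntidiagonal.1 hp).1 k.1 k.2)).symm
    · exact (if_neg k).trans_le (rg_nn _ _ _)
  rw [pm_apply, pm_apply, ← mul_assoc, mul_right_comm (R p.1) _ (R p.2)]
  exact mul_le_mul_of_nonneg_left h1 (mul_nonneg (hR _) (hR _))

theorem d2Lay : LayStmt := by
  intro hL hF κ c C s ε hκ hc hc2 hC hs hs2 hε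
  rcases le_total c (1 / 2) with h | h
  · exact half_Lay2 hL hF hκ hc h hC hs hs2 hε
  filter_upwards [half_Lay2 hL hF (c := 1 - c) (C := 2 * C) hκ (by linarith) (by linarith)
    (by linarith) hs hs2 hε, eventually_gt_atTop (0 : ℝ)] with x h1 x0
  refine le_trans (SS_mono (by positivity) fun n hn => swap_Lay2 (nn_RR x κ) ?_) h1
  rintro a b rfl h2 h3
  have e : x ^ (1 - c) * x ^ c = x := by rw [← Real.rpow_add x0, sub_add_cancel, Real.rpow_one]
  have p1 : 0 < x ^ c := by positivity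
  have p2 : 0 < x ^ (1 - c) := by positivity
  have p3 : (0 : ℝ) ≤ a := Nat.cast_nonneg a
  obtain ⟨w1, w2⟩ := hn
  rw [Nat.cast_mul] at w1 w2
  rw [div_lt_iff₀ (by linarith)] at h2 ⊢
  constructor
  · refine lt_of_mul_lt_mul_right (a := x ^ c) ?_ p1.le
    nlinarith [mul_le_mul_of_nonneg_left h3 p3]
  · refine le_of_mul_le_mul_right (a := x ^ c) ?_ p1
    nlinarith [mul_le_mul_of_nonneg_left h2.le p3,
      mul_le_mul_of_nonneg_left w2 (by linarith : 0 ≤ C)]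

end Pool.Agent.MP_c853c5_nt.D2
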