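import Pool.Agent.MP_c853c5_nt.D2.Defs

/-!
The nominal point for two sieved factors.
-/

set_option autoImplicit false

open Finset Filter

namespace Pool.Agent.MP_c853c5_nt.D2

open Pool.Agent.MP_c853c5_nt.S Pool.Agent.MP_c853c5_nt.D

lemma split_Nom2 {ι : Type} [Fintype ι] {x s : ℝ} (hx : 1 < x) {l u m : ι → ℝ}
    (hm : ∀ i, x ^ l i ≤ m i ∧ m i ≤ x ^ u i) (hl : ∑ i, l i ≤ s) (hu : s ≤ ∑ i, u i)
    (h1 : x ^ s ≤ 2 * ∏ i, m i) (h2 : ∏ i, m i ≤ 2 * x ^ s) :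
    ∃ a : ι → ℝ, ∑ i, a i = s ∧
      ∀ i, l i ≤ a i ∧ a i ≤ u i ∧ x ^ a i ≤ 2 * m i ∧ m i ≤ 2 * x ^ a i := by
  have x0 : 0 < x := by linarith
  have m0 : ∀ i, 0 < m i := fun i => (Real.rpow_pos_of_pos x0 _).trans_le (hm i).1
  obtain ⟨a, a1, a2⟩ := L2.proj (l := l) (u := u) (α := fun i => Real.logb x (m i)) (s := s)
    (fun i => ⟨(Real.le_logb_iff_rpow_le hx (m0 i)).2 (hm i).1,
      (Real.logb_le_iff_le_rpow hx (m0 i)).2 (hm i).2⟩) hl hu
  have p0 : 0 < ∏ i, m i := prod_pos fun i _ => m0 i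
  have s0 : 0 < x ^ s := Real.rpow_pos_of_pos x0 s
  have a3 : |∑ i, Real.logb x (m i) - s| ≤ Real.logb x 2 := by
    rw [← Real.logb_prod _ _ fun i _ => (m0 i).ne']
    have b1 := Real.logb_le_logb_of_le hx p0 h2
    have b2 := Real.logb_le_logb_of_le hx s0 h1
    rw [Real.logb_mul two_ne_zero s0.ne', Real.logb_rpow x0 hx.ne'] at b1
    rw [Real.logb_mul two_ne_zero p0.ne', Real.logb_rpow x0 hx.ne'] at b2
    exact abs_le.2 ⟨by linarith, by linarith⟩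
  refine ⟨a, a1, fun i => ?_⟩
  obtain ⟨b1, b2, b3⟩ := a2 i
  obtain ⟨b4, b5⟩ := abs_le.1 (b3.trans a3)
  have b6 := Real.rpow_logb x0 hx.ne' (m0 i)
  have b7 := Real.rpow_logb x0 hx.ne' two_pos
  refine ⟨b1, b2, ?_, ?_⟩
  · calc x ^ a i ≤ x ^ (Real.logb x 2 + Real.logb x (m i)) :=
          Real.rpow_le_rpow_of_exponent_le hx.le (by linarith)
      _ = _ := by rw [Real.rpow_add x0, b6, b7]
  · calc m i = x ^ Real.logb x (m i) := b6.symm
      _ ≤ x ^ (Real.logb x 2 + a i) := Real.rpow_le_rpow_of_exponent_le hx.le (by linarith)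
      _ = _ := by rw [Real.rpow_add x0, b7]

lemma rpow_max_Nom2 {x a b m : ℝ} (h1 : x ^ a ≤ m) (h2 : x ^ b ≤ m) : x ^ max a b ≤ m := by
  rcases max_choice a b with h | h <;> rwa [h]

theorem d2Nom : NomStmt2 := by
  intro ι₁ ι₂ _ _ l1 u1 l2 u2 lo hi hl2
  filter_upwards [L2.nominal (ι := Option (Option ι₁))
    (fun o => o.elim (max lo (∑ i, l2 i)) fun o => o.elim 0 fun i => max (l1 i) 0)
    (fun o => o.elim hi fun o => o.elim 2 u1), eventually_ge_atTop 2]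
    with x hN hx m1 m2 n1 n2 hm1 hm2 hn1 hn2 h1 h2 h3 h4
  have x1 : 1 < x := by linarith
  have x0 : 0 < x := by linarith
  have a1 : (1 : ℝ) ≤ n1 := Nat.one_le_cast.2 hn1
  have a2 : (1 : ℝ) ≤ n2 := Nat.one_le_cast.2 hn2
  have a3 : (1 : ℝ) ≤ ∏ i, (m1 i : ℝ) := one_le_prod fun i _ => Nat.one_le_cast.2 (hm1 i).1
  have a4 : x ^ (∑ i, l2 i) ≤ ∏ i, (m2 i : ℝ) := by
    rw [Real.rpow_sum_of_pos x0]
    exact prod_le_prod (fun i _ => (Real.rpow_pos_of_pos x0 _).le) fun i _ => (hm2 i).1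
  have a5 : 0 ≤ ∑ i, l2 i := sum_nonneg fun i _ => hl2 i
  have a6 : (1 : ℝ) ≤ ∏ i, (m2 i : ℝ) := (Real.one_le_rpow x1.le a5).trans a4
  have a7 : 2 * x ≤ x ^ (2 : ℝ) := by
    rw [Real.rpow_two]
    nlinarith
  have b1 : (n1 : ℝ) ≤ x ^ (2 : ℝ) := ((le_mul_of_one_le_left (by linarith) a3).trans
    (le_mul_of_one_le_right (by positivity) (one_le_mul_of_one_le_of_one_le a6 a2))).trans
      (h2.trans a7)
  have b2 : (n2 : ℝ) ≤ x ^ (2 : ℝ) := ((le_mul_of_one_le_left (by linarith) a6).trans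
    (le_mul_of_one_le_left (by positivity) (one_le_mul_of_one_le_of_one_le a3 a1))).trans
      (h2.trans a7)
  have e : ∏ o : Option (Option ι₁), o.elim ((∏ i, (m2 i : ℝ)) * n2)
      (fun o => o.elim (n1 : ℝ) fun i => (m1 i : ℝ)) =
      (∏ i, (m1 i : ℝ)) * n1 * ((∏ i, (m2 i : ℝ)) * n2) := by
    simp only [Fintype.prod_option, Option.elim]
    ring
  obtain ⟨a, s1, s2⟩ := hN (fun o => o.elim ((∏ i, (m2 i : ℝ)) * n2)
      (fun o => o.elim (n1 : ℝ) fun i => (m1 i : ℝ))) (by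
    rintro (_ | _ | i)
    · exact ⟨rpow_max_Nom2 h3 (a4.trans (le_mul_of_one_le_right (by linarith) a2)), h4⟩
    · exact ⟨(Real.rpow_zero x).trans_le a1, b1⟩
    · exact ⟨rpow_max_Nom2 (hm1 i).2.1
        ((Real.rpow_zero x).trans_le (Nat.one_le_cast.2 (hm1 i).1)), (hm1 i).2.2⟩)
    (e ▸ h1) (e ▸ h2)
  simp only [Fintype.sum_option] at s1
  obtain ⟨c1, c2, c3, c4⟩ := s2 none
  have c5 : ∀ i, l1 i ≤ a (some (some i)) ∧ 0 ≤ a (some (some i)) := fun i =>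
    max_le_iff.1 (s2 (some (some i))).1
  have c6 : 0 ≤ a (some none) := (s2 (some none)).1
  have c7 : 0 ≤ ∑ i, a (some (some i)) := sum_nonneg fun i _ => (c5 i).2
  have c8 : lo ≤ a none ∧ ∑ i, l2 i ≤ a none := max_le_iff.1 c1
  have c9 : 0 ≤ ∑ i, u2 i := sum_nonneg fun i _ => (hl2 i).trans
    ((Real.rpow_le_rpow_left_iff x1).1 ((hm2 i).1.trans (hm2 i).2))
  have e2 : ∏ o : Option ι₂, o.elim (n2 : ℝ) (fun i => (m2 i : ℝ)) = (∏ i, (m2 i : ℝ)) * n2 := by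
    simp only [Fintype.prod_option, Option.elim]
    ring
  obtain ⟨q, t1, t2⟩ := split_Nom2 (ι := Option ι₂) (s := a none) x1
    (l := fun o => o.elim 0 l2) (u := fun o => o.elim 2 u2)
    (m := fun o => o.elim (n2 : ℝ) fun i => (m2 i : ℝ)) (by
      rintro (_ | i)
      · exact ⟨(Real.rpow_zero x).trans_le a2, b2⟩
      · exact hm2 i)
    (by simpa only [Fintype.sum_option, Option.elim, zero_add] using c8.2)
    (by simp only [Fintype.sum_option, Option.elim]; linarith) (e2 ▸ c3) (e2 ▸ c4)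
  rw [Fintype.sum_option] at t1
  refine ⟨fun i => a (some (some i)), fun i => q (some i), a (some none), q none,
    fun i => ⟨(c5 i).2, (c5 i).1, (s2 (some (some i))).2⟩, fun i => t2 (some i), c6,
    (s2 (some none)).2.2, (t2 none).1, (t2 none).2.2, by linarith, by linarith [c8.1], ?_⟩
  have c2' : a none ≤ hi := c2
  linarith

end Pool.Agent.MP_c853c5_nt.D2
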