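import Pool.Agent.MP_c853c5_nt.D2.Defs

/-!
The logarithmic mass of a sieved function with a smooth weight.
-/

set_option autoImplicit false

open Finset Filter

namespace Pool.Agent.MP_c853c5_nt.D2

open Pool.Agent.MP_c853c5_nt.S Pool.Agent.MP_c853c5_nt.D Pool.Agent.MP_2a1f0e_nt

lemma supp_Om2 {a b : ℝ} (ha : a ≤ 1) (hb : 2 ≤ b) :
    Function.support (fun s : ℝ => DH.om s / s) ⊆ Set.Ioc a b := fun s hs => by
  have h : ¬(s ≤ 1 ∨ 5 / 3 ≤ s) := fun k => hs (div_eq_zero_iff.2 (Or.inl (DH.om_eq_zero k)))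
  rw [not_or, not_le, not_le] at h
  exact ⟨by linarith [h.1], by linarith [h.2]⟩

/-- the constant -/
noncomputable def cc_Om2 : ℝ := ∫ s in (1 : ℝ)..2, DH.om s / s

lemma cc_le_Om2 : 0 ≤ cc_Om2 ∧ cc_Om2 ≤ 1 := by
  refine ⟨intervalIntegral.integral_nonneg one_le_two fun s hs =>
    div_nonneg (E.om_nonneg (by linarith [hs.1])) (by linarith [hs.1]), ?_⟩
  have h := intervalIntegral.norm_integral_le_of_norm_le_const (a := 1) (b := 2) (C := 1)
    (f := fun s : ℝ => DH.om s / s) fun s hs => by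
      rw [Set.uIoc_of_le one_le_two] at hs
      have h0 : 0 < s := by linarith [hs.1]
      have h1 := DH.psi_le_one (3 / 4 * s)
      have h2 := DH.psi_nonneg s
      rw [Real.norm_of_nonneg (div_nonneg (E.om_nonneg h0.le) h0.le), div_le_one h0, DH.om]
      linarith [hs.1]
  refine (le_abs_self _).trans (h.trans_eq ?_)
  norm_num

lemma int_Om2 {Y T : ℝ} (hY : 0 < Y) (hT : 2 * Y ≤ T) :
    ∫ u in (0 : ℝ)..T, DH.om (u / Y) / u = cc_Om2 := by
  have h := intervalIntegral.integral_comp_div (a := 0) (b := T) (fun s : ℝ => DH.om s / s) hY.ne'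
  rw [intervalIntegral.integral_eq_integral_of_support_subset (a := 0 / Y)
    (supp_Om2 (by simp) ((le_div_iff₀ hY).2 hT)),
    ← intervalIntegral.integral_eq_integral_of_support_subset (supp_Om2 le_rfl le_rfl)] at h
  apply mul_left_cancel₀ hY.ne'
  rw [← intervalIntegral.integral_const_mul]
  refine Eq.trans (intervalIntegral.integral_congr fun u _ => ?_) h
  simp only [div_div_eq_mul_div]
  ring

lemma mono_Om2 {Y c : ℝ} (hY : 0 < Y) (hc : 0 ≤ c) :
    Monotone (fun u : ℝ => Y⁻¹ - DH.psi (c * (max u Y / Y)) / max u Y) ∧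
      ∀ u : ℝ, 0 ≤ Y⁻¹ - DH.psi (c * (max u Y / Y)) / max u Y ∧
        Y⁻¹ - DH.psi (c * (max u Y / Y)) / max u Y ≤ Y⁻¹ := by
  have h0 : ∀ u, 0 < max u Y := fun u => hY.trans_le (le_max_right _ _)
  refine ⟨fun u v h => sub_le_sub_left ?_ _, fun u => ⟨sub_nonneg.2 ?_,
    sub_le_self _ (div_nonneg (DH.psi_nonneg _) (h0 u).le)⟩⟩
  · have h1 := max_le_max_right Y h
    exact div_le_div₀ (DH.psi_nonneg _) (DH.psi_anti (by gcongr)) (h0 u) h1
  · rw [← one_div]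
    exact div_le_div₀ zero_le_one (DH.psi_le_one _) hY (le_max_right _ _)

lemma one_Om2 {Y : ℝ} (hY : 0 < Y) {N : ℕ} (hN : 2 * Y ≤ N) :
    |∑ l ∈ Ioc 0 N, DH.om ((l : ℝ) / Y) / l - cc_Om2| ≤ 2 / Y := by
  obtain ⟨mA, hA⟩ := mono_Om2 hY zero_le_one
  obtain ⟨mB, hB⟩ := mono_Om2 hY (show (0 : ℝ) ≤ 3 / 4 by norm_num)
  have e : ∀ u : ℝ, DH.om (u / Y) / u = (Y⁻¹ - DH.psi (1 * (max u Y / Y)) / max u Y) -
      (Y⁻¹ - DH.psi (3 / 4 * (max u Y / Y)) / max u Y) := fun u => by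
    rcases le_total u Y with h | h
    · rw [max_eq_right h, div_self hY.ne', DH.om_eq_zero (Or.inl ((div_le_one hY).2 h)),
        DH.psi_eq_one (by norm_num), DH.psi_eq_one (by norm_num), zero_div, sub_self]
    · rw [max_eq_left h, one_mul, DH.om]
      ring
  have b1 := abs_le.1 (mono_SZ mA (fun u => (hA u).1) (fun u => (hA u).2) N)
  have b2 := abs_le.1 (mono_SZ mB (fun u => (hB u).1) (fun u => (hB u).2) N)
  have s1 : ∑ l ∈ Ioc 0 N, DH.om ((l : ℝ) / Y) / l =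
      ∑ i ∈ range N, DH.om (((i + 1 : ℕ) : ℝ) / Y) / (i + 1 : ℕ) := by
    rw [range_eq_Ico, sum_Ico_add' (fun l : ℕ => DH.om ((l : ℝ) / Y) / l)]
    rfl
  rw [s1, ← int_Om2 hY hN]
  simp only [e]
  rw [intervalIntegral.integral_sub mA.intervalIntegrable mB.intervalIntegrable, sum_sub_distrib,
    div_eq_mul_inv 2, abs_le]
  constructor <;> linarith [b1.1, b1.2, b2.1, b2.2]

lemma conv_Om2 (N : ℕ) (F : ℕ → ℕ → ℝ) (h : ∀ d l, N < d * l → F d l = 0) :
    ∑ n ∈ Ioc 0 N, ∑ x ∈ n.divisorsAntidiagonal, F x.1 x.2 =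
      ∑ d ∈ Ioc 0 N, ∑ l ∈ Ioc 0 N, F d l := by
  rw [← sum_product', sum_congr rfl fun n hn => by
    rw [Nat.divisorsAntidiagonal_eq_prod_filter_of_le (mem_Ioc.1 hn).1.ne' (mem_Ioc.1 hn).2],
    sum_fiberwise_eq_sum_filter]
  refine sum_filter_of_ne fun x hx h0 => mem_Ioc.2 ⟨?_, not_lt.1 fun k => h0 (h _ _ k)⟩
  rw [mem_product, mem_Ioc, mem_Ioc] at hx
  exact Nat.mul_pos hx.1.1 hx.2.1

lemma ms_Om2 (lam : AF) {y : ℝ} (hy : 0 < y) {N : ℕ} (hN : 2 * y ≤ N) :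
    ms N (pm (lam * zt) (oy y)) =
      ∑ d ∈ Ioc 0 N, lam d / d * ∑ l ∈ Ioc 0 N, DH.om ((l : ℝ) / (y / d)) / l := by
  have h := conv_Om2 N (fun d l => lam d * zt l * oy y (d * l) / (d * l : ℕ)) fun d l k => by
    have : oy y (d * l) = 0 := by
      by_contra h0
      have h1 := (oy_ne hy h0).2
      have h2 : (N : ℝ) < (d * l : ℕ) := by exact_mod_cast k
      linarith
    rw [this, mul_zero, zero_div]
  refine Eq.trans (sum_congr rfl fun n _ => ?_) (h.trans (sum_congr rfl fun d _ => ?_))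
  · rw [pm_apply, ArithmeticFunction.mul_apply, sum_mul, sum_div]
    refine sum_congr rfl fun x hx => ?_
    rw [(Nat.mem_divisorsAntidiagonal.1 hx).1]
  · rw [mul_sum]
    refine sum_congr rfl fun l hl => ?_
    have h1 : zt l = 1 := by simp [zt, (mem_Ioc.1 hl).1.ne']
    rw [h1, oy, Nat.cast_mul, div_div_eq_mul_div, mul_comm (l : ℝ) d]
    ring

theorem d2Om : OmStmt := by
  refine ⟨2, two_pos, fun lam D y U X h1 h2 hD hy hU h3 h4 => ?_⟩
  obtain ⟨N, hN⟩ := exists_nat_ge (X + 2 * y + D)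
  have hX : (0 : ℝ) ≤ X := Nat.cast_nonneg _
  have a1 : ms X (pm (lam * zt) (oy y)) ≤ ms N (pm (lam * zt) (oy y)) :=
    sum_le_sum_of_subset_of_nonneg
      (Icc_subset_Icc_right (by exact_mod_cast (show (X : ℝ) ≤ N by linarith)))
      fun n _ _ => div_nonneg (mul_nonneg (h3 n) (oy_nn hy n)) (Nat.cast_nonneg _)
  have a2 : cc_Om2 * ms N lam ≤ U :=
    (mul_le_mul_of_nonneg_left (h4 N (by linarith)) cc_le_Om2.1).trans
      (mul_le_of_le_one_left hU cc_le_Om2.2)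
  have a3 : ∑ d ∈ Ioc 0 N, |lam d| ≤ D := by
    rw [← sum_subset (s₁ := Ioc 0 ⌊D⌋₊) (Ioc_subset_Ioc_right (Nat.floor_le_of_le (by linarith)))
      fun d hd hd' => by
        by_contra h0
        exact hd' (mem_Ioc.2 ⟨(mem_Ioc.1 hd).1, Nat.le_floor (h2 d (abs_ne_zero.1 h0))⟩)]
    refine (sum_le_card_nsmul _ _ 1 fun d _ => h1 d).trans ?_
    rw [Nat.card_Ioc, tsub_zero, nsmul_one]
    exact Nat.floor_le (by linarith)
  have a4 : ms N (pm (lam * zt) (oy y)) - cc_Om2 * ms N lam ≤ 2 / y * ∑ d ∈ Ioc 0 N, |lam d| := by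
    rw [ms_Om2 lam hy (by linarith), ms, show Icc 1 N = Ioc 0 N from rfl, mul_sum, mul_sum,
      ← sum_sub_distrib]
    refine sum_le_sum fun d hd => ?_
    have d1 : (1 : ℝ) ≤ d := by exact_mod_cast (mem_Ioc.1 hd).1
    have d0 : (0 : ℝ) < d := by linarith
    have b := one_Om2 (div_pos hy d0) (N := N) (by linarith [div_le_self hy.le d1])
    rw [mul_comm cc_Om2, ← mul_sub]
    refine (le_abs_self _).trans ?_
    rw [abs_mul, abs_div, abs_of_pos d0]
    refine (mul_le_mul_of_nonneg_left b (by positivity)).trans_eq ?_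
    field_simp
  have a5 := mul_le_mul_of_nonneg_left a3 (show 0 ≤ 2 / y by positivity)
  rw [show 2 * D / y = 2 / y * D by ring]
  linarith

end Pool.Agent.MP_c853c5_nt.D2
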