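import Pool.Agent.MP_c853c5_nt.D2.Defs

/-!
The bound for one box with two sieved factors.
-/

set_option autoImplicit false

open Finset Filter

namespace Pool.Agent.MP_c853c5_nt.D2

open Pool.Agent.MP_c853c5_nt.S Pool.Agent.MP_c853c5_nt.D

lemma win_One2 {x γ a y : ℝ} {m : ℕ} (hx : 0 < x) (h4 : 4 ≤ x ^ γ) (h : Cls x a m) (h1 : y ≤ m)
    (h2 : (m : ℝ) ≤ 2 * y) : x ^ (a - γ) ≤ y ∧ y ≤ x ^ (a + γ) := by
  have p : 0 < x ^ a := Real.rpow_pos_of_pos hx a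
  have y0 : 0 ≤ y := by linarith [h.1]
  rw [Real.rpow_sub hx, Real.rpow_add hx, div_le_iff₀ (by linarith)]
  exact ⟨by nlinarith [h.1], by nlinarith [h.2]⟩

theorem d2One : OneStmt2 := by
  intro hBox hNom hTa hTb hE1 hE2 hE12 τ t η η' κ z1 z2 lo hi K w r B ht htτ hτ hη hη1 hη' hκ
    hlev hAlt j1 j2 A
  obtain ⟨γ, hγ, h1⟩ := hBox hTa hTb hE1 hE2 hE12 (Fin r ⊕ (Fin j1 ⊕ Fin j2)) τ t η η' κ K w A
    ht htτ hτ hη hη1 hη' hκ hlev
  have h3 := hNom (Fin r ⊕ Fin j1) (Fin j2) (Sum.elim (fun i => (B i).lo) fun _ => κ)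
    (Sum.elim (fun i => (B i).hi) fun _ => z1) (fun _ => κ) (fun _ => z2) lo hi fun _ => hκ.le
  filter_upwards [h1, h3, (tendsto_rpow_atTop hγ).eventually_ge_atTop 4, eventually_gt_atTop 1]
    with x h1 h3 h4 hx
  intro lam e hF N k1 k2 hN hI
  have hx0 : 0 < x := by linarith
  have hlog : 0 < Real.log x := Real.log_pos hx
  set c := cf x κ z1 z2 B j1 j2
  have hc01 : ∀ i n, 0 ≤ c i n ∧ c i n ≤ 1 := by
    rintro (i | i | i) n
    exacts [bf_nn_One x (B i) n, PP_nn_One x κ z1 n, PP_nn_One x κ z2 n]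
  have hnn : ∀ i n, 0 ≤ dy (N i) (c i) n := fun i n => (dy_nn_One (N i) (hc01 i) n).1
  by_cases h0 : Dl t x ((∏ i, dy (N i) (c i)) * pc (RR x κ) k1 * pc (RR x κ) k2) = 0
  · have hG : Nn (∏ i, dy (N i) (c i)) := Nn.prod fun i _ => hnn i
    have a1 := hF.er_nn hx0.le hG k1 k2
    have a2 := hF.er_nn hx0.le hG k2 k1
    rw [h0, abs_zero]
    positivity
  have h5 : ∃ Δ, SS x Δ ((∏ i, dy (N i) (c i)) * (pc (RR x κ) k1 * pc (RR x κ) k2)) ≠ 0 := by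
    by_contra k
    push Not at k
    exact h0 (by rw [mul_assoc, Dl, SB, k, k, sub_zero])
  obtain ⟨Δ, h5⟩ := h5
  obtain ⟨m, l, hm, hl, w1, w2⟩ := dVan _ x Δ _ _ hx0 h5
  obtain ⟨n1, n2, rfl, l1, l2⟩ := exists_of_mul_ne hl
  obtain ⟨-, y1, y1'⟩ := pc_ne l1
  obtain ⟨-, y2, y2'⟩ := pc_ne l2
  have p1 := yk_pos_T1 k1
  have p2 := yk_pos_T1 k2
  have d1 : ∀ i, (N i : ℝ) ≤ m i := fun i => Nat.cast_le.2 (dy_ne_One (hm i)).1.1
  have d2 : ∀ i, (m i : ℝ) ≤ 2 * N i := fun i => by exact_mod_cast (dy_ne_One (hm i)).1.2.le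
  have e1 : (∏ i, (m i : ℝ)) * (n1 * n2 : ℕ) =
      (∏ i : Fin r ⊕ Fin j1, (m (Sum.map id Sum.inl i) : ℝ)) * n1 *
        ((∏ i, (m (.inr (.inr i)) : ℝ)) * n2) := by
    simp only [Fintype.prod_sum_type, Sum.map_inl, Sum.map_inr, id, Nat.cast_mul]
    ring
  obtain ⟨a, q, b1, b2, ha, hq, hb1, c1, hb2, c2, hs, s1, s2⟩ :=
    h3 (fun i => m (Sum.map id Sum.inl i)) (fun i => m (.inr (.inr i))) n1 n2
      (fun i => ⟨(hN _).trans (dy_ne_One (hm _)).1.1, by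
        rcases i with i | i
        · have k4 := bf_ne_One (x := x) (B := B i) (dy_ne_One (hm (.inl i))).2
          exact ⟨k4.2.1.le, k4.2.2.1⟩
        · exact PP_ne_One (κ := κ) (z := z1) hx0.le (dy_ne_One (hm (.inr (.inl i)))).2⟩)
      (fun i => PP_ne_One (κ := κ) (z := z2) hx0.le (dy_ne_One (hm (.inr (.inr i)))).2)
      (Nat.cast_pos.1 (p1.trans y1)) (Nat.cast_pos.1 (p2.trans y2)) (e1 ▸ w1) (e1 ▸ w2)
      (hI.1.trans (mul_le_mul (prod_le_prod (fun i _ => Nat.cast_nonneg _) fun i _ => d1 _) y2.le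
        p2.le (prod_nonneg fun i _ => Nat.cast_nonneg _)))
      (le_trans ((mul_le_mul (prod_le_prod (fun i _ => Nat.cast_nonneg _) fun i _ => d2 _) y2'.le
        (Nat.cast_nonneg _) (prod_nonneg fun i _ => by positivity)).trans_eq (by
          rw [prod_mul_distrib, prod_const, card_univ, Fintype.card_fin]
          ring)) hI.2)
  have hs' : ∑ i, a (.inl i) + (∑ i, a (.inr i) + ∑ i, q i) + b1 + b2 = 1 := by
    rw [← hs, Fintype.sum_sum_type, ← add_assoc]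
  have v1 := win_One2 hx0 h4 c1 y1.le y1'.le
  have v2 := win_One2 hx0 h4 c2 y2.le y2'.le
  refine h1 lam e hF _ _ b1 b2 N _ k1 k2 ?_ hb1 hb2 (by simpa using hs')
    (hAlt j1 j2 (fun i => a (.inl i)) (fun i => a (.inr i)) q b1 b2
      (fun i => ⟨(ha (.inl i)).1, (ha (.inl i)).2.1, (ha (.inl i)).2.2.1⟩)
      (fun i => ⟨(ha (.inr i)).2.1, (ha (.inr i)).2.2.1⟩) (fun i => ⟨(hq i).1, (hq i).2.1⟩)
      hb1 hb2 hs' s1 s2)
    (fun i => slot_One (hN i) (hc01 i)) hnn (fun i => win_One2 hx0 h4 ?_ (d1 i) (d2 i)) ?_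
    v1.1 v1.2 v2.1 v2.2 (le_trans ?_ w2)
  · rintro (i | i | i)
    exacts [(ha _).1, (ha _).1, hκ.le.trans (hq i).1]
  · rcases i with i | i | i
    exacts [(ha (.inl i)).2.2.2, (ha (.inr i)).2.2.2, (hq i).2.2]
  · rintro (i | i | i) hi
    exacts [dPr.1 x (B i) _ hx hi, dPr.2 _ _ _, dPr.2 _ _ _]
  · rw [mul_assoc, ← Nat.cast_mul]
    exact mul_le_mul (prod_le_prod (fun i _ => Nat.cast_nonneg _) fun i _ => d1 i)
      (Nat.cast_le.2 (Nat.mul_le_mul (Nat.ceil_le.2 y1.le) (Nat.ceil_le.2 y2.le)))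
      (Nat.cast_nonneg _) (prod_nonneg fun i _ => Nat.cast_nonneg _)

end Pool.Agent.MP_c853c5_nt.D2
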