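import Pool.Agent.MP_c853c5_nt.D2.Defs

/-!
From the boxes inside the range to the sharp range.
-/

set_option autoImplicit false

open Finset Filter

namespace Pool.Agent.MP_c853c5_nt.D2

open Pool.Agent.MP_c853c5_nt.S Pool.Agent.MP_c853c5_nt.D

lemma abs_mul_Row2 {f g F G : AF} {n : ℕ} (hf : ∀ d, d ≤ n → |f d| ≤ F d)
    (hg : ∀ d, d ≤ n → |g d| ≤ G d) : |(f * g) n| ≤ (F * G) n := by
  rw [ArithmeticFunction.mul_apply, ArithmeticFunction.mul_apply]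
  refine (abs_sum_le_sum_abs _ _).trans (sum_le_sum fun p hp => ?_)
  have h1 := hf _ (Nat.divisor_le (Nat.fst_mem_divisors_of_mem_antidiagonal hp))
  have h2 := hg _ (Nat.divisor_le (Nat.snd_mem_divisors_of_mem_antidiagonal hp))
  rw [abs_mul]
  exact mul_le_mul h1 h2 (abs_nonneg _) ((abs_nonneg _).trans h1)

lemma pp_rough_Row2 {x κ z : ℝ} {n : ℕ} (h : PP x κ z n ≠ 0) : Rough x κ n := by
  rw [PP, prI_apply_One] at h
  split_ifs at h with k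
  · exact (rough_prime k.2.2).2 (Nat.lt_of_floor_lt k.1)
  · exact absurd rfl h

lemma bnd_Row2 (hB : BndStmt) {κ : ℝ} (hκ : 0 < κ) (z : ℝ) {r : ℕ} (j : ℕ) (B : Fin r → Blk)
    (h : ∀ i, κ ≤ (B i).a) : ∃ C : ℝ, 0 < C ∧ ∀ᶠ x : ℝ in atTop, ∀ n : ℕ, (n : ℝ) ≤ 2 * x →
      ((∏ i, bf x (B i)) * PP x κ z ^ j * RR x κ) n ≤ C * RR x κ n := by
  obtain ⟨C, hC, h1⟩ := hB (Option (Fin r ⊕ Fin j)) κ hκ
  refine ⟨C, hC, ?_⟩
  filter_upwards [h1, eventually_ge_atTop 1] with x h2 hx n hn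
  have h3 := h2 (fun o => o.elim (RR x κ) (Sum.elim (fun i => bf x (B i)) fun _ => PP x κ z))
    (by
      rintro (_ | i | i) m
      · exact ⟨nn_RR x κ m, bf_le_one _ _ m, fun k => (mem_of_bf_ne k).2.2.2.1⟩
      · exact ⟨nn_bf _ _ m, bf_le_one _ _ m, fun k => (mem_of_bf_ne k).2.2.2.1.anti hx (h i)⟩
      · exact ⟨(PP_nn_One x κ z m).1, (PP_nn_One x κ z m).2, pp_rough_Row2⟩) n hn
  rw [Fintype.prod_option, Fintype.prod_sum_type] at h3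
  simp only [Option.elim, Sum.elim_inl, Sum.elim_inr, prod_const, card_univ,
    Fintype.card_fin] at h3
  rwa [mul_comm (RR x κ)] at h3

lemma pt_Row2 {H F I Q R : AF} {w1 w2 : ℕ → ℝ} {C1 C2 : ℝ} {n : ℕ} (hH : Nn H)
    (h1 : ∀ d, d ≤ n → H d ≤ C1 * R d) (h2 : ∀ d, d ≤ n → Q d ≤ C2 * R d)
    (a1 : ∀ d, 0 ≤ w1 d) (a2 : ∀ d, 0 ≤ w2 d)
    (h3 : ∀ d, d ≤ n → |F d - I d| ≤ pm Q w1 d + pm Q w2 d) :
    |(H * F - H * I) n| ≤ ((C1 * C2) • (R * pm R w1 + R * pm R w2)) n := by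
  have e : (C1 * C2) • (R * pm R w1 + R * pm R w2) = (C1 • R) * (C2 • (pm R w1 + pm R w2)) := by
    rw [mul_smul_comm, smul_mul_assoc, smul_smul, mul_comm C2, mul_add]
  rw [e, ← mul_sub]
  refine abs_mul_Row2 (fun d hd => ?_) fun d hd => ?_
  · rw [abs_of_nonneg (hH d)]
    exact h1 d hd
  · rw [AF_sub, AF_smul, ArithmeticFunction.add_apply]
    refine (h3 d hd).trans ?_
    simp only [pm_apply]
    nlinarith [mul_le_mul_of_nonneg_right (h2 d hd) (a1 d),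
      mul_le_mul_of_nonneg_right (h2 d hd) (a2 d)]

theorem d2Row : RowStmt2 := by
  intro hCut hB hLay hLam hFW t κ z1 z2 lo hi E r j1 j2 B ht ht2 hκ hBa hlo hlh hhi hin ε hε
  obtain ⟨C1, hC1, b1⟩ := bnd_Row2 hB hκ z1 j1 B hBa
  obtain ⟨C2, hC2, b2⟩ := bnd_Row2 hB hκ z2 j2 (Fin.elim0 : Fin 0 → Blk) fun i => i.elim0
  have hC : (1 : ℝ) ≤ 2 ^ (j2 + 2) := one_le_pow₀ one_le_two
  have hδ : 0 < ε / (8 * (C1 * C2)) := by positivity
  have l1 := hLay hLam hFW κ lo _ t _ hκ hlo (hlh.trans hhi) hC ht ht2 hδ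
  have l2 := hLay hLam hFW κ hi _ t _ hκ (hlo.trans hlh) hhi hC ht ht2 hδ
  have l3 := hLay hLam hFW κ lo _ (1 / 1000) _ hκ hlo (hlh.trans hhi) hC (by norm_num)
    (by norm_num) hδ
  have l4 := hLay hLam hFW κ hi _ (1 / 1000) _ hκ (hlo.trans hlh) hhi hC (by norm_num)
    (by norm_num) hδ
  filter_upwards [b1, b2, l1, l2, l3, l4, hin _ (half_pos hε), eventually_ge_atTop 3] with
    x b1 b2 l1 l2 l3 l4 h0 hx
  have hx0 : 0 < x := by linarith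
  have nP : ∀ z, Nn (PP x κ z) := fun z m => (PP_nn_One x κ z m).1
  have hcut := hCut (PP x κ z2) (RR x κ) j2 (LL x) (nn x) ⌊2 * x⌋₊ (x ^ lo) (x ^ hi) (nP z2)
    (nn_RR x κ) (Real.rpow_pos_of_pos hx0 _) (Real.rpow_pos_of_pos hx0 _) LL_big
    ((Nat.floor_le (by linarith)).trans (nn_big hx))
  have hH : Nn ((∏ i, bf x (B i)) * PP x κ z1 ^ j1 * RR x κ) :=
    ((Nn.prod fun i _ => nn_bf _ _).mul ((nP z1).pow j1)).mul (nn_RR x κ)
  rw [Fin.prod_univ_zero, one_mul] at b2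
  generalize (∏ i, bf x (B i)) * PP x κ z1 ^ j1 * RR x κ = H at b1 h0 hH ⊢
  generalize inn (PP x κ z2) (RR x κ) j2 (LL x) (nn x) (x ^ lo) (x ^ hi) = I at h0 hcut
  generalize pm (PP x κ z2 ^ j2 * RR x κ) (rg (x ^ lo) (x ^ hi)) = F at hcut ⊢
  have key : ∀ Δ : ℝ, 0 ≤ Δ → |SS x Δ (H * F - H * I)| ≤ C1 * C2 *
      (SS x Δ (RR x κ * pm (RR x κ) (rg (x ^ lo / 2 ^ (j2 + 2)) (2 ^ (j2 + 2) * x ^ lo))) +
        SS x Δ (RR x κ * pm (RR x κ) (rg (x ^ hi / 2 ^ (j2 + 2)) (2 ^ (j2 + 2) * x ^ hi)))) := by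
    intro Δ hΔ
    rw [← SS_add, ← SS_smul]
    refine abs_SS_le hΔ fun n hn => ?_
    have a : ∀ d, d ≤ n → (d : ℝ) ≤ 2 * x := fun d hd => (Nat.cast_le.2 hd).trans hn.2
    exact pt_Row2 hH (fun d hd => b1 d (a d hd)) (fun d hd => b2 d (a d hd)) (rg_nn _ _)
      (rg_nn _ _) fun d hd => hcut d (Nat.le_floor (a d hd))
  have hCC : 0 < C1 * C2 := mul_pos hC1 hC2
  have k1 := (key _ (Real.rpow_nonneg hx0.le (-t))).trans
    (mul_le_mul_of_nonneg_left (add_le_add l1 l2) hCC.le)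
  have k2 := (key _ (Real.rpow_nonneg hx0.le (-(1 / 1000)))).trans
    (mul_le_mul_of_nonneg_left (add_le_add l3 l4) hCC.le)
  have e : C1 * C2 * (ε / (8 * (C1 * C2)) * (x / Real.log x) +
      ε / (8 * (C1 * C2)) * (x / Real.log x)) = ε / 4 * (x / Real.log x) := by
    generalize x / Real.log x = u
    field_simp
    ring
  rw [e] at k1 k2
  have e2 : Dl t x (H * F) = Dl t x (H * I) + (SS x (x ^ (-t)) (H * F - H * I) -
      SS x (x ^ (-(1 / 1000) : ℝ)) (H * F - H * I)) := by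
    have := Dl_sub t x (H * F) (H * I)
    unfold Dl SB at this ⊢
    linarith
  rw [e2]
  refine (abs_add_le _ _).trans ?_
  linarith [abs_sub (SS x (x ^ (-t)) (H * F - H * I))
    (SS x (x ^ (-(1 / 1000) : ℝ)) (H * F - H * I))]

end Pool.Agent.MP_c853c5_nt.D2
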