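import Pool.Agent.MP_c853c5_nt.D2.Defs

/-!
Summation over the number of small primes of the second factor.
-/

set_option autoImplicit false

open Finset Filter

namespace Pool.Agent.MP_c853c5_nt.D2

open Pool.Agent.MP_c853c5_nt.S Pool.Agent.MP_c853c5_nt.D

lemma blk_Sum2 {x lo hi z : ℝ} (hx : 2 ≤ x) {d : ℕ} (hd : (d : ℝ) ≤ 2 * x) :
    bf x ⟨lo, hi, z, none⟩ d = bf x (fr z) d * rg (x ^ lo) (x ^ hi) d := by
  have h2 : (d : ℝ) ≤ x ^ (2 : ℝ) := by rw [Real.rpow_two]; nlinarith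
  have key : Blk.Mem ⟨lo, hi, z, none⟩ x d ↔
      (fr z).Mem x d ∧ (x ^ lo < d ∧ (d : ℝ) ≤ x ^ hi) := by
    rw [mem_fr (by linarith)]
    exact ⟨fun h => ⟨⟨h.1, h2, h.2.2.2.1⟩, h.2.1, h.2.2.1⟩,
      fun h => ⟨h.1.1, h.2.1, h.2.2, h.1.2.2, by simp⟩⟩
  simp only [bf, rg, ArithmeticFunction.coe_mk]
  by_cases a : (fr z).Mem x d <;> by_cases b : x ^ lo < d ∧ (d : ℝ) ≤ x ^ hi <;> simp [a, b, key]

lemma bad_Sum2 (x κ : ℝ) {d n : ℕ} (hn : n ≠ 0) (h : d ∣ n) : bad x κ d ≤ bad x κ n := by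
  simp only [bad, ArithmeticFunction.coe_mk]
  split_ifs with a b
  · exact le_rfl
  · obtain ⟨-, p, p1, p2, p3⟩ := a
    exact (b ⟨hn, p, p1, p2, p3.trans h⟩).elim
  · exact zero_le_one
  · exact le_rfl

lemma bad_nn_Sum2 (x κ : ℝ) (n : ℕ) : 0 ≤ bad x κ n := by
  simp only [bad, ArithmeticFunction.coe_mk]
  split_ifs <;> norm_num

theorem d2Sum : SumStmt2 := by
  intro t κ z lo hi E m H t0 t1 κ0 κz E0 m0 hH h ε hε
  obtain ⟨J, hJ⟩ := dId 0 Fin.elim0 κ z κ0 κz
  obtain ⟨δ₁, d1, b1⟩ := dBad dSZ κ t κ0 t0 t1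
  obtain ⟨δ₂, d2, b2⟩ := dBad dSZ κ (1 / 1000) κ0 (by norm_num) (by norm_num)
  have d0 : 0 < min δ₁ δ₂ := lt_min d1 d2
  have d6 : 0 < min δ₁ δ₂ / 6 := by positivity
  have e0 : 0 < ε / (2 * (J + 1)) := by positivity
  filter_upwards [hJ _ d6, hH _ d6, div_Id 0 1 d6, b1, b2, eventually_ge_atTop 2,
    small_Sum _ (ε / 4) (half_pos d0) (by positivity),
    (eventually_all_finset (range J)).2 fun j _ => h j _ e0] with x h1 g1 ⟨Δ, _, g2, g3⟩ h2 h3 hx2
    h4 h5
  have hx : 1 < x := by linarith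
  have x0 : 0 < x := by linarith
  set F : AF := H x * bf x ⟨lo, hi, z, none⟩ with hF
  set Gj : ℕ → AF := fun j => pm (PP x κ z ^ j * RR x κ) (rg (x ^ lo) (x ^ hi)) with hG
  set T : AF := ∑ j ∈ range J, ((-1) ^ j / (j.factorial : ℝ)) • (H x * Gj j) with hT
  have u0 : 0 < x / Real.log x := div_pos (by linarith) (Real.log_pos hx)
  have p0 : 0 ≤ x ^ (min δ₁ δ₂ / 6) := Real.rpow_nonneg x0.le _
  have k0 : ∀ n : ℕ, (n : ℝ) ≤ 2 * x → |(F - T) n| ≤ x ^ (min δ₁ δ₂ / 2) * bad x κ n := by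
    intro n hn
    rcases eq_or_ne n 0 with rfl | n0
    · simp
    have hd : ∀ d, d ∣ n → (d : ℝ) ≤ 2 * x := fun d hd =>
      le_trans (by exact_mod_cast Nat.le_of_dvd (Nat.pos_of_ne_zero n0) hd) hn
    have e1 : F - T = H x * (bf x ⟨lo, hi, z, none⟩ -
        ∑ j ∈ range J, ((-1) ^ j / (j.factorial : ℝ)) • Gj j) := by
      rw [mul_sub, mul_sum]
      simp only [mul_smul_comm, hF, hT]
    rw [e1]
    refine (B.abs_mul_apply_le (B := x ^ (min δ₁ δ₂ / 6) * bad x κ n) p0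
      (fun d k => g1 d (hd d k)) fun d k => ?_).trans ?_
    · have a1 := h1 d (hd d k)
      simp only [univ_eq_empty, prod_empty, one_mul] at a1
      rw [AF_sub, AF_sum, blk_Sum2 hx2 (hd d k)]
      have e2 : ∑ j ∈ range J, (((-1) ^ j / (j.factorial : ℝ)) • Gj j) d =
          (∑ j ∈ range J, (-1) ^ j / (j.factorial : ℝ) * (PP x κ z ^ j * bf x (fr κ)) d) *
            rg (x ^ lo) (x ^ hi) d := by
        rw [sum_mul]
        exact sum_congr rfl fun j _ => by rw [AF_smul, mul_assoc]; rfl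
      rw [e2, ← sub_mul, abs_mul, abs_of_nonneg (rg_nn _ _ _)]
      exact (mul_le_of_le_one_right (abs_nonneg _) (rg_le _ _ _)).trans
        (a1.trans (mul_le_mul_of_nonneg_left (bad_Sum2 x κ n0 k) p0))
    · have a2 : (n.divisors.card : ℝ) ≤ x ^ (min δ₁ δ₂ / 6) := by
        refine (g2 n (Nat.le_floor (by nlinarith))).trans ?_
        simpa using g3
      have a3 : x ^ (min δ₁ δ₂ / 2) =
          x ^ (min δ₁ δ₂ / 6) * (x ^ (min δ₁ δ₂ / 6) * x ^ (min δ₁ δ₂ / 6)) := by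
        rw [← Real.rpow_add x0, ← Real.rpow_add x0]
        congr 1
        ring
      rw [a3, mul_assoc, mul_assoc]
      exact mul_le_mul_of_nonneg_right a2
        (mul_nonneg p0 (mul_nonneg p0 (bad_nn_Sum2 x κ n)))
  have k1 := abs_le.1 (width_Sum hx (min_le_left _ _) k0 h2)
  have k2 := abs_le.1 (width_Sum hx (min_le_right _ _) k0 h3)
  have k3 : |Dl t x (F - T)| ≤ ε / 2 * (x / Real.log x) := by
    unfold Dl SB
    rw [abs_le]
    constructor <;> linarith [k1.1, k1.2, k2.1, k2.2]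
  have k4 : |Dl t x T| ≤ (ε / 2 + E * Real.exp m) * (x / Real.log x) := by
    rw [hT, Dl_sum]
    refine (abs_sum_le_sum_abs _ _).trans ?_
    calc ∑ j ∈ range J, |Dl t x (((-1) ^ j / (j.factorial : ℝ)) • (H x * Gj j))|
        ≤ ∑ j ∈ range J, (ε / (2 * (J + 1)) + E * (m ^ j / j.factorial)) * (x / Real.log x) := by
          refine sum_le_sum fun j hj => ?_
          have f1 : (1 : ℝ) ≤ j.factorial := by exact_mod_cast j.factorial_pos
          rw [Dl_smul, abs_mul, abs_div, abs_pow, abs_neg, abs_one, one_pow,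
            abs_of_pos (by linarith : (0 : ℝ) < j.factorial)]
          refine (mul_le_mul_of_nonneg_left (h5 j hj) (by positivity)).trans ?_
          rw [← mul_assoc]
          apply mul_le_mul_of_nonneg_right _ u0.le
          have : 1 / (j.factorial : ℝ) * (ε / (2 * (J + 1))) ≤ ε / (2 * (J + 1)) :=
            mul_le_of_le_one_left e0.le ((div_le_one (by linarith)).2 f1)
          calc _ = 1 / (j.factorial : ℝ) * (ε / (2 * (J + 1))) + E * (m ^ j / j.factorial) := by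
                ring
            _ ≤ _ := by linarith
      _ = (J * (ε / (2 * (J + 1))) + E * ∑ j ∈ range J, m ^ j / j.factorial) *
            (x / Real.log x) := by
          rw [← sum_mul, sum_add_distrib, sum_const, card_range, nsmul_eq_mul, ← mul_sum]
      _ ≤ _ := by
          apply mul_le_mul_of_nonneg_right _ u0.le
          have a1 : J * (ε / (2 * (J + 1))) ≤ ε / 2 := by
            rw [← mul_div_assoc, div_le_div_iff₀ (by positivity) (by norm_num)]
            nlinarith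
          have a2 := mul_le_mul_of_nonneg_left (Real.sum_le_exp_of_nonneg m0 J) E0
          linarith
  rw [Dl_sub] at k3
  have k5 := abs_add_le (Dl t x F - Dl t x T) (Dl t x T)
  rw [sub_add_cancel] at k5
  linarith

end Pool.Agent.MP_c853c5_nt.D2
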