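import Pool.Agent.MP_c853c5_nt.D2.Defs

/-!
Type I bounds with sieve weights on one or two smooth factors.
-/

set_option autoImplicit false

open Finset Filter

namespace Pool.Agent.MP_c853c5_nt.D2

open Pool.Agent.MP_c853c5_nt.S Pool.Agent.MP_c853c5_nt.D Pool.Agent.MP_2a1f0e_nt

lemma sgl_def_Ta2 (d n : ℕ) : sgl d n = if n = d ∧ n ≠ 0 then 1 else 0 := rfl

lemma sgl_apply_Ta2 {d : ℕ} (hd : d ≠ 0) (f : AF) (n : ℕ) :
    (sgl d * f) n = if d ∣ n then f (n / d) else 0 := by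
  rcases eq_or_ne n 0 with rfl | hn
  · simp
  rw [ArithmeticFunction.mul_apply, Nat.sum_divisorsAntidiagonal fun a b => sgl d a * f b]
  split_ifs with h
  · rw [sum_eq_single_of_mem d (Nat.mem_divisors.2 ⟨h, hn⟩), sgl_def_Ta2, if_pos ⟨rfl, hd⟩,
      one_mul]
    intro b _ hb
    rw [sgl_def_Ta2, if_neg fun k => hb k.1, zero_mul]
  · refine sum_eq_zero fun b hb => ?_
    rw [sgl_def_Ta2, if_neg fun k : b = d ∧ b ≠ 0 => h (k.1 ▸ Nat.dvd_of_mem_divisors hb),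
      zero_mul]

lemma sgl_mul_Ta2 {a b : ℕ} (ha : a ≠ 0) : sgl a * sgl b = sgl (a * b) := by
  ext n
  rw [sgl_apply_Ta2 ha]
  split_ifs with h
  · obtain ⟨k, rfl⟩ := h
    rw [Nat.mul_div_cancel_left _ (Nat.pos_of_ne_zero ha), sgl_def_Ta2, sgl_def_Ta2]
    simp [ha]
  · rw [sgl_def_Ta2, if_neg fun k : n = a * b ∧ n ≠ 0 => h (k.1 ▸ dvd_mul_right a b)]

lemma pm_sgl_Ta2 {d : ℕ} (hd : d ≠ 0) (y : ℝ) :
    pm (sgl d * zt) (oy y) = sgl d * omz (y / d) := by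
  ext n
  rw [pm_apply, sgl_apply_Ta2 hd, sgl_apply_Ta2 hd]
  split_ifs with h
  · obtain ⟨k, rfl⟩ := h
    rw [Nat.mul_div_cancel_left _ (Nat.pos_of_ne_zero hd)]
    rcases eq_or_ne k 0 with rfl | hk
    · simp
    · have h1 : zt k = 1 := by
        simp [zt, ArithmeticFunction.natCoe_apply, ArithmeticFunction.zeta_apply, hk]
      rw [h1, one_mul]
      change DH.om _ = DH.om _
      rw [Nat.cast_mul, div_div_eq_mul_div, mul_comm]
  · rw [zero_mul]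

lemma pm_exp_Ta2 {lam : AF} {D : ℕ} (h : ∀ d, lam d ≠ 0 → d ≤ D) (y : ℝ) :
    pm (lam * zt) (oy y) = ∑ d ∈ Icc 1 D, lam d • (sgl d * omz (y / d)) := by
  ext n
  conv_lhs => rw [lam_T1 h]
  rw [pm_apply, sum_mul, AF_sum, AF_sum, sum_mul]
  refine sum_congr rfl fun d hd => ?_
  rw [← pm_sgl_Ta2 (Nat.one_le_iff_ne_zero.1 (mem_Icc.1 hd).1), smul_mul_assoc, AF_smul, AF_smul,
    pm_apply, mul_assoc]

lemma range_Ta2 {x τ t η γ γ₀ b y : ℝ} {d : ℕ} (hx : 1 ≤ x) (ht : 1 / 3 ≤ t) (hτ : τ ≤ 1 / 2)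
    (hb : 1 / 10 ≤ b) (g1 : γ ≤ γ₀) (g2 : γ ≤ (τ - t) / 4) (h1 : x ^ (b - γ) ≤ y)
    (h2 : y ≤ x ^ (b + γ)) (hd : d ∈ Icc 1 ⌊x ^ lev τ t η⌋₊) :
    x ^ (b - (τ - t) / 2) ≤ y / d ∧ y / d ≤ x ^ (b + γ₀) ∧ 1 ≤ y / d := by
  have x0 : 0 < x := by linarith
  obtain ⟨d1, d2⟩ := mem_Icc.1 hd
  have d3 : (1 : ℝ) ≤ d := by exact_mod_cast d1
  have d4 : (d : ℝ) ≤ x ^ ((τ - t) / 4) :=
    ((Nat.le_floor_iff (by positivity)).1 d2).trans
      (Real.rpow_le_rpow_of_exponent_le hx (min_le_right _ _))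
  have y0 : 0 < y := (Real.rpow_pos_of_pos x0 _).trans_le h1
  have q : x ^ (b - (τ - t) / 2) ≤ y / d := by
    rw [le_div_iff₀ (by linarith)]
    calc x ^ (b - (τ - t) / 2) * d ≤ x ^ (b - (τ - t) / 2) * x ^ ((τ - t) / 4) := by gcongr
      _ ≤ x ^ (b - γ) := by
          rw [← Real.rpow_add x0]
          exact Real.rpow_le_rpow_of_exponent_le hx (by linarith)
      _ ≤ y := h1
  exact ⟨q, (div_le_self y0.le d3).trans (h2.trans
    (Real.rpow_le_rpow_of_exponent_le hx (by linarith))),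
    (Real.one_le_rpow hx (by linarith)).trans q⟩

lemma cnt_Ta2 {x : ℝ} (hx : 1 ≤ x) (τ t η : ℝ) : (⌊x ^ lev τ t η⌋₊ : ℝ) ≤ x ^ (η / 20) :=
  (Nat.floor_le (by positivity)).trans (Real.rpow_le_rpow_of_exponent_le hx (min_le_left _ _))

theorem d2Ta : TaStmt := by
  intro hE ι _ τ t η K ht htτ hτ hη hη'
  obtain ⟨γ₀, h0, hE⟩ := hE ι τ t η K ht htτ hτ hη hη'
  refine ⟨min γ₀ ((τ - t) / 4), lt_min h0 (by linarith), ?_⟩
  have g1 := min_le_left γ₀ ((τ - t) / 4)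
  have g2 := min_le_right γ₀ ((τ - t) / 4)
  generalize min γ₀ ((τ - t) / 4) = γ at g1 g2
  filter_upwards [hE, eventually_ge_atTop 1] with x hE x1
  intro a b N g lam y ha hb h1 hS hN y1 y2 hP hl hd
  have x0 : 0 < x := by linarith
  have e : (∏ i, g i) * pm (lam * zt) (oy y) =
      ∑ d ∈ Icc 1 ⌊x ^ lev τ t η⌋₊, lam d • (sgl d * (∏ i, g i) * omz (y / d)) := by
    rw [pm_exp_Ta2 fun d h => Nat.le_floor (hd d h), mul_sum]
    refine sum_congr rfl fun d _ => ?_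
    rw [mul_smul_comm, mul_left_comm, mul_assoc]
  rw [e, Dl_sum]
  calc _ ≤ ∑ d ∈ Icc 1 ⌊x ^ lev τ t η⌋₊, x ^ (1 - η / 5) := by
        refine (abs_sum_le_sum_abs _ _).trans (sum_le_sum fun d hd' => ?_)
        obtain ⟨q1, q2, q3⟩ := range_Ta2 x1 ht hτ h1.1 g1 g2 y1 y2 hd'
        have d1 := (mem_Icc.1 hd').1
        have d0 : (d : ℝ) ≠ 0 := by positivity
        rw [Dl_smul, abs_mul]
        refine (mul_le_of_le_one_left (abs_nonneg _) (hl d)).trans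
          (hE a b N g d _ ha hb h1 hS (fun i => (hN i).trans
            (Real.rpow_le_rpow_of_exponent_le x1 (by linarith))) q1 q2 q3 d1 (le_of_eq_of_le ?_ hP))
        field_simp
    _ = (⌊x ^ lev τ t η⌋₊ : ℝ) * x ^ (1 - η / 5) := by simp
    _ ≤ x ^ (η / 20) * x ^ (1 - η / 5) := by gcongr; exact cnt_Ta2 x1 τ t η
    _ ≤ _ := by
        rw [← Real.rpow_add x0]
        exact Real.rpow_le_rpow_of_exponent_le x1 (by linarith)

theorem d2Tb : TbStmt := by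
  intro hE ι _ τ t η K ht htτ hτ hη hη'
  obtain ⟨γ₀, h0, hE⟩ := hE ι τ t η K ht htτ hτ hη hη'
  refine ⟨min γ₀ ((τ - t) / 4), lt_min h0 (by linarith), ?_⟩
  have g1 := min_le_left γ₀ ((τ - t) / 4)
  have g2 := min_le_right γ₀ ((τ - t) / 4)
  generalize min γ₀ ((τ - t) / 4) = γ at g1 g2
  filter_upwards [hE, eventually_ge_atTop 1] with x hE x1
  intro a b1 b2 N g l1 l2 y1 y2 ha hb1 hb2 h1 hS hN u1 u2 v1 v2 hP hl1 hl2 hd1 hd2
  have x0 : 0 < x := by linarith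
  have e : (∏ i, g i) * pm (l1 * zt) (oy y1) * pm (l2 * zt) (oy y2) =
      ∑ d ∈ Icc 1 ⌊x ^ lev τ t η⌋₊, ∑ d' ∈ Icc 1 ⌊x ^ lev τ t η⌋₊,
        (l1 d * l2 d') • (sgl (d * d') * (∏ i, g i) * omz (y1 / d) * omz (y2 / d')) := by
    rw [pm_exp_Ta2 fun d h => Nat.le_floor (hd1 d h), pm_exp_Ta2 fun d h => Nat.le_floor (hd2 d h),
      mul_assoc, sum_mul_sum, mul_sum]
    refine sum_congr rfl fun d hd => ?_
    rw [mul_sum]
    refine sum_congr rfl fun d' _ => ?_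
    rw [smul_mul_smul_comm, mul_smul_comm,
      ← sgl_mul_Ta2 (Nat.one_le_iff_ne_zero.1 (mem_Icc.1 hd).1)]
    congr 1
    ring
  rw [e, Dl_sum]
  calc _ ≤ ∑ d ∈ Icc 1 ⌊x ^ lev τ t η⌋₊, ∑ d' ∈ Icc 1 ⌊x ^ lev τ t η⌋₊, x ^ (1 - η / 5) := by
        refine (abs_sum_le_sum_abs _ _).trans (sum_le_sum fun d hd => ?_)
        rw [Dl_sum]
        refine (abs_sum_le_sum_abs _ _).trans (sum_le_sum fun d' hd' => ?_)
        obtain ⟨q1, q2, q3⟩ := range_Ta2 x1 ht hτ h1.1 g1 g2 u1 u2 hd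
        obtain ⟨r1, r2, r3⟩ := range_Ta2 x1 ht hτ h1.2.1 g1 g2 v1 v2 hd'
        have d1 := (mem_Icc.1 hd).1
        have d2 := (mem_Icc.1 hd').1
        have d0 : (d : ℝ) ≠ 0 := by positivity
        have d0' : (d' : ℝ) ≠ 0 := by positivity
        rw [Dl_smul, abs_mul, abs_mul]
        refine (mul_le_of_le_one_left (abs_nonneg _)
          (mul_le_one₀ (hl1 d) (abs_nonneg _) (hl2 d'))).trans
          (hE a b1 b2 N g (d * d') _ _ ha hb1 hb2 h1 hS (fun i => (hN i).trans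
            (Real.rpow_le_rpow_of_exponent_le x1 (by linarith))) q1 q2 r1 r2 q3 r3
            (Nat.mul_pos d1 d2) (le_of_eq_of_le ?_ hP))
        push_cast
        field_simp
    _ = (⌊x ^ lev τ t η⌋₊ : ℝ) * (⌊x ^ lev τ t η⌋₊ * x ^ (1 - η / 5)) := by simp
    _ ≤ x ^ (η / 20) * (x ^ (η / 20) * x ^ (1 - η / 5)) := by
        gcongr <;> exact cnt_Ta2 x1 τ t η
    _ = _ := by
        rw [← Real.rpow_add x0, ← Real.rpow_add x0]
        congr 1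
        ring

end Pool.Agent.MP_c853c5_nt.D2
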