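import Pool.Agent.MP_c853c5_nt.D2.Defs

/-!
The mass and the size of the sum of the majorants.
-/

set_option autoImplicit false

open Finset Filter

namespace Pool.Agent.MP_c853c5_nt.D2

open Pool.Agent.MP_c853c5_nt.S Pool.Agent.MP_c853c5_nt.D

lemma ms_mono_Tm2 (X : ℕ) {f g : AF} (h : Le f g) : ms X f ≤ ms X g :=
  sum_le_sum fun m _ => div_le_div_of_nonneg_right (h m) (Nat.cast_nonneg m)

lemma ms_sum_Tm2 (X : ℕ) (s : Finset ℕ) (f : ℕ → AF) :
    ms X (∑ k ∈ s, f k) = ∑ k ∈ s, ms X (f k) := by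
  unfold ms
  rw [sum_comm]
  exact sum_congr rfl fun m _ => by rw [AF_sum, sum_div]

lemma ms_RR_Tm2 {κ : ℝ} (h0 : 0 < κ) (h1 : κ ≤ 1) :
    ∀ᶠ x : ℝ in atTop, ms ⌊2 * x⌋₊ (RR x κ) ≤ 36 / κ ^ 2 := by
  filter_upwards [rcp_Ms h0 h1, eventually_ge_atTop 2] with x hx hx2
  have h3 : Real.exp (2 * Real.log (6 / κ)) = 36 / κ ^ 2 := by
    rw [two_mul, Real.exp_add, Real.exp_log (by positivity)]
    ring
  rw [← h3]
  refine (euler_Ms (Ioc ⌊x ^ κ⌋₊ ⌊x ^ (2 : ℝ)⌋₊) ⌊2 * x⌋₊ (RR x κ) (bf_le_one _ _)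
    fun m hm => ?_).trans (Real.exp_le_exp.2 (mul_le_mul_of_nonneg_left hx (by norm_num)))
  by_cases h : (fr κ).Mem x m
  · refine Or.inr fun p hp hd => mem_Ioc.2 ⟨?_, ?_⟩
    · rw [Nat.floor_lt (by positivity)]
      exact h.2.2.2.1 p hp hd
    · exact le_floor_Ms hx2 ((Nat.le_of_dvd (mem_Icc.1 hm).1 hd).trans (mem_Icc.1 hm).2)
  · exact Or.inl (bf_of_not h)

lemma zt_le_Tm2 (d : ℕ) : |zt d| ≤ 1 := by
  rcases eq_or_ne d 0 with rfl | h
  · simp
  · simp [zt, h]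

theorem d2Tm : TmStmt := by
  rintro ⟨C, hC, hOm⟩ κ w h0 hw
  have hw0 : (0 : ℝ) ≤ w := Nat.cast_nonneg w
  have hκ : κ ≤ 1 / 600 := by nlinarith
  filter_upwards [ms_RR_Tm2 h0 (by linarith), div_all (Fin 2) (show (0 : ℝ) < 1 / 400 by norm_num),
    E.ev_log_le (9 * C) 1 (show (0 : ℝ) < 1 / 25 by norm_num), E.ev_le_log 1,
    eventually_ge_atTop 1] with x h1 h2 h3 h4 hx lam e hF
  have hx0 : 0 < x := by linarith
  refine ⟨?_, fun n hn => ?_⟩
  · have h5 : (nn x : ℝ) ≤ 9 * Real.log x := by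
      have := Nat.ceil_lt_add_one (show 0 ≤ 8 * Real.log x by linarith)
      unfold nn
      linarith
    have h6 : x ^ (1 / 20 : ℝ) = x ^ (1 / 100 : ℝ) * x ^ (1 / 25 : ℝ) := by
      rw [← Real.rpow_add hx0]
      norm_num
    have h7 : 0 < x ^ (1 / 25 : ℝ) := by positivity
    have hU : 0 ≤ 4 / (κ * Real.log x) := by positivity
    have key : ∀ k ∈ range (nn x), ms ⌊2 * x⌋₊ (up x κ lam k) ≤
        ms ⌊2 * x⌋₊ (pc (RR x κ) k) + (4 / (κ * Real.log x) + C / x ^ (1 / 25 : ℝ)) := by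
      intro k _
      unfold up
      split_ifs with hk
      · exact le_add_of_nonneg_right (by positivity)
      · refine le_trans ?_ (le_add_of_nonneg_left (ms_nn_One _ (nn_pc (nn_RR x κ) k)))
        refine (hOm lam _ _ _ _ hF.b1 hF.s1 (Real.one_le_rpow hx (by positivity)) (yk_pos_T1 k)
          hU hF.nn_lam hF.m1).trans (add_le_add_right ?_ _)
        rw [div_le_div_iff₀ (yk_pos_T1 k) h7, mul_assoc]
        refine mul_le_mul_of_nonneg_left (le_trans ?_ (not_lt.1 hk)) hC.le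
        rw [h6]
        exact mul_le_mul_of_nonneg_right (Real.rpow_le_rpow_of_exponent_le hx hw) h7.le
    rw [ms_sum_Tm2]
    refine (sum_le_sum key).trans ?_
    rw [sum_add_distrib, ← ms_sum_Tm2, sum_const, card_range, nsmul_eq_mul]
    have h8 := (ms_mono_Tm2 ⌊2 * x⌋₊ (sum_pc_le (nn_RR x κ) (range (nn x)))).trans h1
    have h9 : (nn x : ℝ) * (4 / (κ * Real.log x) + C / x ^ (1 / 25 : ℝ)) ≤ 36 / κ + 1 := by
      refine (mul_le_mul_of_nonneg_right h5 (by positivity)).trans ?_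
      have e1 : 9 * Real.log x * (4 / (κ * Real.log x)) = 36 / κ := by
        field_simp
        norm_num
      rw [mul_add, e1, ← mul_div_assoc]
      refine add_le_add_right ((div_le_one h7).2 ?_) _
      rw [pow_one] at h3
      linarith
    have h10 : 36 / κ + 1 ≤ 92 / κ ^ 2 := by
      rw [div_add_one h0.ne', div_le_div_iff₀ h0 (by positivity)]
      nlinarith [mul_pos h0 h0]
    have h11 : (2 : ℝ) ^ 7 / κ ^ 2 = 36 / κ ^ 2 + 92 / κ ^ 2 := by ring
    linarith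
  · have h5 := h2 ![lam, zt] (fun i => by
      fin_cases i
      exacts [hF.b1, zt_le_Tm2]) n hn
    rw [Fin.prod_univ_two] at h5
    refine le_trans ?_ ((sum_pc_le hF.nn_lam (range (nn x)) n).trans ((le_abs_self _).trans h5))
    rw [AF_sum, AF_sum]
    refine sum_le_sum fun k _ => ?_
    unfold up
    split_ifs
    exacts [mul_le_mul_of_nonneg_right (hF.maj n) (oy_nn (yk_pos_T1 k) n), le_rfl]

end Pool.Agent.MP_c853c5_nt.D2
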