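import Pool.Agent.MP_c853c5_nt.D2.Fin
import Pool.Agent.MP_c853c5_nt.D2.FW
import Pool.Agent.MP_c853c5_nt.D2.Om
import Pool.Agent.MP_c853c5_nt.D2.Tm
import Pool.Agent.MP_c853c5_nt.D2.Ta
import Pool.Agent.MP_c853c5_nt.D2.Box
import Pool.Agent.MP_c853c5_nt.D2.Nom
import Pool.Agent.MP_c853c5_nt.D2.One
import Pool.Agent.MP_c853c5_nt.D2.ESum
import Pool.Agent.MP_c853c5_nt.D2.Exp
import Pool.Agent.MP_c853c5_nt.D2.In
import Pool.Agent.MP_c853c5_nt.D2.Cut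
import Pool.Agent.MP_c853c5_nt.D2.Bnd
import Pool.Agent.MP_c853c5_nt.D2.Lam
import Pool.Agent.MP_c853c5_nt.D2.Lay
import Pool.Agent.MP_c853c5_nt.D2.Row
import Pool.Agent.MP_c853c5_nt.D2.Sum

set_option autoImplicit false

namespace Pool.Agent.MP_c853c5_nt.D2

open Pool.Agent.MP_c853c5_nt.S

theorem leafS2 (h1 : E1D) (h2 : E2D) (h12 : E12D) : LeafS2 :=
  d2Fin d2FW d2Om d2Tm d2Ta d2Tb d2Box d2Nom d2One d2Err d2ESum d2Exp d2In d2Cut d2Bnd d2Lam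
    d2Lay d2Row d2Sum h1 h2 h12

end Pool.Agent.MP_c853c5_nt.D2
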